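import Mathlib
import Pool.Graph.R_seed8.H302R3.Weak

/-!
# Commuting subgroups: definitions

`Pool.Agent.H302R3.IsSolHeilbronn θ`: `θ` is a class function on the finite group such that for all
SOLVABLE subgroups `H` and all linear characters `ψ` of `H` the multiplicity of `ψ` in the restriction
of `θ` to `H` is a nonnegative integer. The degree of `θ` is `θ 1`.
-/

set_option autoImplicit false

namespace Pool.Agent.H377.AD

open Pool.Agent.H302R3
open scoped commutatorElement

/-- `X` is rigid below the degree `b`: every class function on `X` of degree less than `b` with
nonnegative multiplicities on the solvable subgroups is constant on the commutator subgroup `X'`. -/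
def Rigid (b : ℕ) (X : Type) [Group X] : Prop :=
  ∀ ε : X → ℂ, IsSolHeilbronn ε → ∀ n : ℕ, n < b → ε 1 = n → ∀ x ∈ commutator X, ε x = ε 1

/-- The subgroups `X i` of `G` commute with each other, they are permuted transitively by the
conjugations of `G`, and for some `b` with `r < b * (number of subgroups)` they are rigid below the
degree `b`. -/
structure Family {G : Type} [Group G] (r : ℕ) {ι : Type} (X : ι → Subgroup G) : Prop where
  comm : ∀ i j, i ≠ j → ∀ x ∈ X i, ∀ y ∈ X j, x * y = y * x
  perm : ∀ (g : G) (i : ι), ∃ j, ∀ x, x ∈ X i ↔ g * x * g⁻¹ ∈ X j
  trans : ∀ i j, ∃ g : G, ∀ x, x ∈ X i ↔ g * x * g⁻¹ ∈ X j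
  rigid : ∃ b, (∀ i, Rigid b (X i)) ∧ r < b * Nat.card ι

/-- The normal subgroups of `G` which are reached from the trivial subgroup by adding, again and
again, the commutator subgroups of families of commuting subgroups of the quotient: if the kernel of
the surjection `π : G → P` is layered and `X` is a family of subgroups of `P`, then the preimage
of the subgroup generated by the commutator subgroups of the `X i` is layered. -/
inductive Layered {G : Type} [Group G] (r : ℕ) : Subgroup G → Prop
  | bot : Layered r ⊥
  | step {P : Type} [Group P] (π : G →* P) (hπ : Function.Surjective π) (hM : Layered r π.ker)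
      {ι : Type} [Finite ι] (X : ι → Subgroup P) (hX : Family r X) :
      Layered r ((⨆ i, ⁅X i, X i⁆ : Subgroup P).comap π)

/-- The finite groups which are reduced to solvable groups by dividing out, again and again,
solvable normal subgroups and the subgroups generated by the commutator subgroups of families of
commuting subgroups. -/
inductive Wide (r : ℕ) : (G : Type) → Group G → Prop
  | sol (G : Type) (hG : Group G) (h : Group.IsSolvable G) : Wide r G hG
  | ext (G P : Type) (hG : Group G) (hP : Group P) (π : G →* P) (hπ : Function.Surjective π)
      (h : Group.IsSolvable π.ker) (hq : Wide r P hP) : Wide r G hG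
  | fam (G P : Type) (hG : Group G) (hP : Group P) (π : G →* P) (hπ : Function.Surjective π)
      {ι : Type} [Finite ι] (X : ι → Subgroup G) (hX : Family r X)
      (h : π.ker = ⨆ i, ⁅X i, X i⁆) (hq : Wide r P hP) : Wide r G hG

end Pool.Agent.H377.AD
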