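import Mathlib
import Pool.Agent.H377.AD.Defs
import Pool.Graph.R_pool_sql_team_seeded_b3bd081e.H541R3.ARS.Comp
import Pool.Graph.R_pool_sql_team_seeded_b677cdb8.E8helper9.KT.Ker

/-!
# The parts of a class function over the linear characters of a commuting solvable group
-/

set_option autoImplicit false
set_option linter.unusedSectionVars false

namespace Pool.Agent.H377.AD

open Pool.Agent.H302R2 Pool.Agent.H302R3 Pool.Agent.H302R5 Pool.Agent.H541R3.ARS

universe u v w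

section fourier

variable {E : Type v} [Group E] [Finite E]

lemma sum_char_apply [DecidableEq E] (hc : ∀ a b : E, a * b = b * a) [Fintype (E →* ℂˣ)] (a : E) :
    ∑ ψ : E →* ℂˣ, ((ψ a : ℂˣ) : ℂ) = if a = 1 then (Nat.card E : ℂ) else 0 := by
  classical
  let _ : CommGroup E := { (inferInstance : Group E) with mul_comm := hc }
  have hroots : HasEnoughRootsOfUnity ℂ (Monoid.exponent E) := by
    have : NeZero (Monoid.exponent E) := ⟨Monoid.exponent_ne_zero_of_finite⟩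
    infer_instance
  split_ifs with h
  · subst h
    have h1 := CommGroup.card_monoidHom_of_hasEnoughRootsOfUnity E ℂ
    simp only [map_one, Units.val_one, Finset.sum_const, Finset.card_univ, nsmul_eq_mul, mul_one]
    rw [← Nat.card_eq_fintype_card, h1]
  · obtain ⟨φ, hφ⟩ := CommGroup.exists_apply_ne_one_of_hasEnoughRootsOfUnity E ℂ h
    have h1 : ∑ ψ : E →* ℂˣ, ((ψ a : ℂˣ) : ℂ) = ((φ a : ℂˣ) : ℂ) * ∑ ψ : E →* ℂˣ, ((ψ a : ℂˣ) : ℂ) := by
      rw [Finset.mul_sum]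
      rw [← Equiv.sum_comp (Equiv.mulLeft φ) (fun ψ : E →* ℂˣ => ((ψ a : ℂˣ) : ℂ))]
      refine Finset.sum_congr rfl fun ψ _ => ?_
      rw [Equiv.coe_mulLeft, MonoidHom.mul_apply, Units.val_mul]
    have h2 : (1 - ((φ a : ℂˣ) : ℂ)) * ∑ ψ : E →* ℂˣ, ((ψ a : ℂˣ) : ℂ) = 0 := by
      rw [sub_mul, one_mul, ← h1, sub_self]
    rcases mul_eq_zero.mp h2 with h3 | h3
    · exact absurd (Units.val_eq_one.mp (sub_eq_zero.mp h3).symm) hφ
    · exact h3

/-- Fourier inversion on a finite commutative group. -/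
lemma fourier_inv (hc : ∀ a b : E, a * b = b * a) [Fintype E] [Fintype (E →* ℂˣ)] (F : E → ℂ)
    (h : E) : F h = ∑ ψ : E →* ℂˣ,
      ((Nat.card E : ℂ)⁻¹ * ∑ x : E, F x * (((ψ x)⁻¹ : ℂˣ) : ℂ)) * ((ψ h : ℂˣ) : ℂ) := by
  classical
  have hE : (Nat.card E : ℂ) ≠ 0 := by exact_mod_cast Nat.card_pos.ne'
  have h1 : ∀ ψ : E →* ℂˣ, ((Nat.card E : ℂ)⁻¹ * ∑ x : E, F x * (((ψ x)⁻¹ : ℂˣ) : ℂ)) *
      ((ψ h : ℂˣ) : ℂ) = (Nat.card E : ℂ)⁻¹ * ∑ x : E, F x * ((ψ (x⁻¹ * h) : ℂˣ) : ℂ) := by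
    intro ψ
    rw [mul_assoc, Finset.sum_mul]
    congr 1
    refine Finset.sum_congr rfl fun x _ => ?_
    rw [map_mul, map_inv, Units.val_mul, mul_assoc]
  rw [Finset.sum_congr rfl (fun ψ _ => h1 ψ), ← Finset.mul_sum, Finset.sum_comm]
  have h2 : ∀ x : E, ∑ ψ : E →* ℂˣ, F x * ((ψ (x⁻¹ * h) : ℂˣ) : ℂ)
      = if x = h then F h * (Nat.card E : ℂ) else 0 := by
    intro x
    rw [← Finset.mul_sum, sum_char_apply hc]
    by_cases hx : x = h
    · subst hx; simp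
    · rw [if_neg hx, if_neg (fun h3 => hx (inv_mul_eq_one.mp h3)), mul_zero]
  rw [Finset.sum_congr rfl (fun x _ => h2 x), Finset.sum_ite_eq' Finset.univ h,
    if_pos (Finset.mem_univ _)]
  field_simp

end fourier

section part

variable {G : Type u} [Group G] [Finite G] {E : Type v} [Group E] [Fintype E]

/-- the part of `θ` over the linear character `ψ` of `E`, for a homomorphism `e : E → G` -/
noncomputable def part (θ : G → ℂ) (e : E →* G) (ψ : E →* ℂˣ) (g : G) : ℂ :=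
  (Nat.card E : ℂ)⁻¹ * ∑ h : E, θ (g * e h) * (((ψ h)⁻¹ : ℂˣ) : ℂ)

variable {θ : G → ℂ}

lemma part_isSol (hθ : IsSolHeilbronn θ) (hE : Group.IsSolvable E) (e : E →* G) (ψ : E →* ℂˣ)
    {A : Type w} [Group A] [Finite A] (f : A →* G) (hc : ∀ a h, Commute (f a) (e h)) :
    IsSolHeilbronn (fun a => part θ e ψ (f a)) where
  conj a b := by
    unfold part
    congr 1
    refine Finset.sum_congr rfl fun h _ => ?_
    have h1 : f (b * a * b⁻¹) * e h = f b * (f a * e h) * (f b)⁻¹ := by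
      rw [map_mul, map_mul, map_inv, mul_assoc (f b * f a), ((hc b h).inv_left).eq]; group
    rw [h1, hθ.conj]
  mult H hH χ := by
    have : Fintype H := Fintype.ofFinite _
    let Φ : H × E →* G := MonoidHom.noncommCoprod (f.comp H.subtype) e (fun a h => hc a h)
    let Ψ : H × E →* ℂˣ := MonoidHom.coprod χ ψ
    have hs : Group.IsSolvable (H × E) := inferInstance
    obtain ⟨n, hn⟩ := hθ.mult_hom hs Φ Ψ
    refine ⟨n, ?_⟩
    have hE0 : (Nat.card E : ℂ) ≠ 0 := by exact_mod_cast Nat.card_pos.ne'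
    rw [finsum_eq_sum_of_fintype]
    have h1 : ∀ a : H, part θ e ψ (f a) * (((χ a)⁻¹ : ℂˣ) : ℂ) = (Nat.card E : ℂ)⁻¹ *
        ∑ h : E, θ (Φ (a, h)) * (((Ψ (a, h))⁻¹ : ℂˣ) : ℂ) := by
      intro a
      unfold part
      rw [mul_assoc, Finset.sum_mul]
      congr 1
      refine Finset.sum_congr rfl fun h _ => ?_
      have h2 : Φ (a, h) = f a * e h := rfl
      have h3 : Ψ (a, h) = χ a * ψ h := rfl
      rw [h2, h3, mul_inv, Units.val_mul]
      ring
    rw [Finset.sum_congr rfl (fun a _ => h1 a), ← Finset.mul_sum,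
      ← Fintype.sum_prod_type (fun x : H × E => θ (Φ x) * (((Ψ x)⁻¹ : ℂˣ) : ℂ)), hn, Nat.card_prod]
    push_cast
    field_simp

/-- Fourier inversion for the parts. -/
lemma sum_part (hc : ∀ a b : E, a * b = b * a) [Fintype (E →* ℂˣ)] (θ : G → ℂ) (e : E →* G)
    (g : G) (h : E) : θ (g * e h) = ∑ ψ : E →* ℂˣ, part θ e ψ g * ((ψ h : ℂˣ) : ℂ) :=
  fourier_inv hc (fun h => θ (g * e h)) h

lemma sum_part_one (hc : ∀ a b : E, a * b = b * a) [Fintype (E →* ℂˣ)] (θ : G → ℂ) (e : E →* G)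
    (g : G) : θ g = ∑ ψ : E →* ℂˣ, part θ e ψ g := by
  have h := sum_part hc θ e g 1
  simpa using h

/-- the parts of the parts -/
lemma part_part {E' : Type w} [Group E'] [Fintype E'] (θ : G → ℂ) (e : E →* G) (e' : E' →* G)
    (hc : ∀ x y, Commute (e x) (e' y)) (ψ : E →* ℂˣ) (ψ' : E' →* ℂˣ) :
    (Nat.card E' : ℂ)⁻¹ * ∑ y : E', part θ e ψ (e' y) * (((ψ' y)⁻¹ : ℂˣ) : ℂ)
      = (Nat.card E : ℂ)⁻¹ * ∑ x : E, part θ e' ψ' (e x) * (((ψ x)⁻¹ : ℂˣ) : ℂ) := by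
  unfold part
  simp only [Finset.mul_sum, Finset.sum_mul]
  rw [Finset.sum_comm]
  refine Finset.sum_congr rfl fun x _ => Finset.sum_congr rfl fun y _ => ?_
  rw [(hc x y).eq]
  ring

end part

end Pool.Agent.H377.AD
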