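import Mathlib
import Pool.Agent.H377.AD.Part
import Pool.Graph.R_pool_sql_team_seeded_b677cdb8.E8helper9.KT.Fin2

/-!
# Functions of constant absolute value are multiples of linear characters
-/

set_option autoImplicit false
set_option linter.unusedSectionVars false

namespace Pool.Agent.H377.AD

open Pool.Agent.H302R2 Pool.Agent.H302R3 Pool.Agent.H302R5 Pool.Agent.H541R3.ARS

section

variable {X : Type} [Group X] [Finite X] {f : X → ℂ}

lemma mul_of_full' (hf : IsSolHeilbronn f) {x y : X} (hy : ‖f y‖ = (f 1).re)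
    (hxy : x * y = y * x) : f (x * y) * f 1 = f x * f y := by
  have h := Pool.Agent.E8helper9.KT.mul_of_full (hf.pair hxy)
    (x := ⟨x, Subgroup.subset_closure (by simp)⟩) (y := ⟨y, Subgroup.subset_closure (by simp)⟩)
    (by simpa using hy) (Subtype.ext hxy)
  simpa using h

theorem scalar_lin (hf : IsSolHeilbronn f) {d : ℕ} (hd : 0 < d) (h1 : f 1 = d)
    (hn : ∀ x, ‖f x‖ = d) : ∃ ν : X →* ℂˣ, ∀ x, f x = d * ((ν x : ℂˣ) : ℂ) := by
  have hd0 : (d : ℂ) ≠ 0 := by exact_mod_cast hd.ne'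
  have hne : ∀ x, f x / d ≠ 0 := by
    intro x
    apply div_ne_zero _ hd0
    rw [← norm_ne_zero_iff, hn]
    exact_mod_cast hd.ne'
  let F : X → ℂˣ := fun x => Units.mk0 (f x / d) (hne x)
  have hF : ∀ x, f x = d * ((F x : ℂˣ) : ℂ) := by
    intro x
    change f x = d * (f x / d)
    field_simp
  have hcomm : ∀ x y : X, x * y = y * x → F (x * y) = F x * F y := by
    intro x y hxy
    apply Units.ext
    have h2 := mul_of_full' hf (x := x) (y := y) (by rw [hn, h1, Complex.natCast_re]) hxy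
    change f (x * y) / d = (f x / d) * (f y / d)
    rw [h1] at h2
    field_simp
    exact h2
  have hF1 : F 1 = 1 := by
    apply Units.ext
    change f 1 / d = 1
    rw [h1]
    field_simp
  have hpow : ∀ (g : X) (n : ℕ), F (g ^ n) = F g ^ n := by
    intro g n
    induction n with
    | zero => rw [pow_zero, pow_zero, hF1]
    | succ n ih => rw [pow_succ, pow_succ, ← ih, hcomm _ _ ((Commute.refl g).pow_left n).eq]
  have hmul : ∀ g h, F (g * h) = F g * F h := by
    apply mul_of_pgroups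
    · intro g h
      apply Units.ext
      change f (h * g * h⁻¹) / d = f g / d
      rw [hf.conj]
    · exact hpow
    · intro p hp P hP x hx y hy
      have : Fact p.Prime := ⟨hp⟩
      have : NeZero (Nat.card P) := ⟨Nat.card_pos.ne'⟩
      -- the group of the values
      let C : Subgroup ℂˣ := rootsOfUnity (Nat.card P) ℂ
      have hCfin : Finite C := inferInstanceAs (Finite (rootsOfUnity (Nat.card P) ℂ))
      have hmem : ∀ g ∈ P, F g ∈ C := by
        intro g hg
        change F g ∈ rootsOfUnity (Nat.card P) ℂ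
        rw [mem_rootsOfUnity, ← hpow]
        have h2 : g ^ Nat.card P = 1 := by
          have h3 : (⟨g, hg⟩ : P) ^ Nat.card P = 1 := pow_card_eq_one'
          exact congrArg Subtype.val h3
        rw [h2, hF1]
      have hCp : IsPGroup p C := by
        obtain ⟨k, hk⟩ := IsPGroup.iff_card.mp hP
        rintro ⟨u, hu⟩
        refine ⟨k, ?_⟩
        apply Subtype.ext
        change u ^ (p ^ k) = 1
        rw [← hk]
        exact (mem_rootsOfUnity _ _).mp hu
      let Q : Subgroup (X × C) := P.prod ⊤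
      have hQp : IsPGroup p Q := by
        have h2 : IsPGroup p (P × (⊤ : Subgroup C)) := by
          rintro ⟨a, b⟩
          obtain ⟨k, hk⟩ := hP a
          obtain ⟨l, hl⟩ := (hCp.to_subgroup ⊤) b
          refine ⟨k + l, ?_⟩
          ext1
          · change a ^ p ^ (k + l) = 1
            rw [pow_add, pow_mul, hk, one_pow]
          · change b ^ p ^ (k + l) = 1
            rw [pow_add, mul_comm, pow_mul, hl, one_pow]
        exact h2.of_equiv (Subgroup.prodEquiv P ⊤).symm
      let χ : X × C →* ℂˣ := (C.subtype.comp (MonoidHom.snd X C))⁻¹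
      have hG := (hf.comp (MonoidHom.fst X C)).twist χ
      have hval : ∀ (z : X) (u : C), f ((MonoidHom.fst X C) (z, u)) * (((χ (z, u))⁻¹ : ℂˣ) : ℂ)
          = f z * ((u : ℂˣ) : ℂ) := by
        intro z u
        change f z * ((((u : ℂˣ)⁻¹)⁻¹ : ℂˣ) : ℂ) = _
        rw [inv_inv]
      have hker : ∀ z (hz : z ∈ P), (fun g : X × C => f ((MonoidHom.fst X C) g) *
          (((χ g)⁻¹ : ℂˣ) : ℂ)) (z, (⟨F z, hmem z hz⟩ : C)⁻¹) =
          (fun g : X × C => f ((MonoidHom.fst X C) g) * (((χ g)⁻¹ : ℂˣ) : ℂ)) 1 := by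
        intro z hz
        have e1 : (1 : X × C) = (1, 1) := rfl
        simp only
        rw [e1, hval, hval, h1, hF z]
        change (d : ℂ) * ((F z : ℂˣ) : ℂ) * (((F z)⁻¹ : ℂˣ) : ℂ) = d * ((1 : ℂˣ) : ℂ)
        rw [Units.val_inv_eq_inv_val, mul_assoc, mul_inv_cancel₀ (F z).ne_zero]
        simp
      have h3 := hG.pgroup_mul hp hQp (x := (x, (⟨F x, hmem x hx⟩ : C)⁻¹))
        (y := (y, (⟨F y, hmem y hy⟩ : C)⁻¹)) ⟨hx, Subgroup.mem_top _⟩ ⟨hy, Subgroup.mem_top _⟩
        (hker x hx) (hker y hy)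
      have e1 : (1 : X × C) = (1, 1) := rfl
      have e2 : (x, (⟨F x, hmem x hx⟩ : C)⁻¹) * (y, (⟨F y, hmem y hy⟩ : C)⁻¹)
        = (x * y, (⟨F x, hmem x hx⟩ : C)⁻¹ * (⟨F y, hmem y hy⟩ : C)⁻¹) := rfl
      rw [e2, e1, hval, hval, h1, hF] at h3
      have h4 : (d : ℂ) * ((F (x * y) : ℂˣ) : ℂ) * (((F x)⁻¹ * (F y)⁻¹ : ℂˣ) : ℂ) = d * 1 := h3
      rw [mul_assoc] at h4
      have h5 := mul_left_cancel₀ hd0 h4
      rw [← Units.val_mul, Units.val_eq_one] at h5
      rw [← mul_inv, mul_inv_eq_one] at h5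
      exact h5
  exact ⟨{ toFun := F, map_one' := hF1, map_mul' := hmul }, hF⟩

end

end Pool.Agent.H377.AD
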