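import Mathlib
import Pool.Agent.H377.AD.Scal

/-!
# Additivity of the degree over commuting subgroups
-/

set_option autoImplicit false
set_option linter.unusedSectionVars false

namespace Pool.Agent.H377.AD

open Pool.Agent.H302R2 Pool.Agent.H302R3 Pool.Agent.H302R5 Pool.Agent.H541R3.ARS

noncomputable local instance instFintypeZ {A : Type} [Group A] [Finite A] (c : A) :
    Fintype (Subgroup.zpowers c) := Fintype.ofFinite _

lemma char_commutator {X : Type} [Group X] (ψ : X →* ℂˣ) {x : X} (hx : x ∈ commutator X) :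
    ψ x = 1 := Abelianization.commutator_subset_ker ψ hx

lemma rigid_two (X : Type) [Group X] [Finite X] : Rigid 2 X := by
  intro ε hε n hn h1 x hx
  interval_cases n
  · have h2 := hε.norm_le x
    rw [h1, Nat.cast_zero, Complex.zero_re, norm_le_zero_iff] at h2
    rw [h2, h1, Nat.cast_zero]
  · obtain ⟨ψ, hψ⟩ := hε.deg_one (by simpa using h1)
    rw [hψ, hψ, char_commutator ψ hx, map_one]

section

variable {G : Type} [Group G] [Finite G] {θ : G → ℂ}

lemma part_nat {E : Type} [Group E] [Fintype E] (hθ : IsSolHeilbronn θ)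
    (hE : Group.IsSolvable E) (e : E →* G) (ψ : E →* ℂˣ) : ∃ n : ℕ, part θ e ψ 1 = n := by
  obtain ⟨n, hn⟩ := hθ.mult_hom hE e ψ
  refine ⟨n, ?_⟩
  have hE0 : (Nat.card E : ℂ) ≠ 0 := by exact_mod_cast Nat.card_pos.ne'
  unfold part
  simp only [one_mul]
  rw [hn]
  field_simp

lemma const_zpowers (hθ : IsSolHeilbronn θ) {y : G} (hy : θ y = θ 1) (z : Subgroup.zpowers y) :
    θ z = θ 1 := by
  obtain ⟨z, hz⟩ := z
  obtain ⟨n, rfl⟩ := (isOfFinOrder_of_finite y).mem_powers_iff_mem_zpowers.mpr hz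
  exact hθ.pow_of_eq hy n

lemma sol_zpowers (y : G) : Group.IsSolvable (Subgroup.zpowers y) := sol_of_comm (zpowers_comm y)

end

/-- **Additivity.** -/
theorem additivity {ι : Type} [DecidableEq ι] {X : ι → Type} [∀ i, Group (X i)]
    [∀ i, Finite (X i)] {b : ι → ℕ} (hb : ∀ i, Rigid (b i) (X i)) (s : Finset ι) :
    ∀ (G : Type) [Group G] [Finite G] (θ : G → ℂ), IsSolHeilbronn θ → ∀ f : ∀ i, X i →* G,
      (∀ i ∈ s, ∀ j ∈ s, i ≠ j → ∀ x y, Commute (f i x) (f j y)) → ∀ y : ∀ i, X i,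
      (∀ i ∈ s, y i ∈ commutator (X i)) → (∀ i ∈ s, θ (f i (y i)) ≠ θ 1) →
      ∀ r : ℕ, θ 1 = r → ∑ i ∈ s, b i ≤ r := by
  classical
  induction s using Finset.strongInduction with
  | H s ih =>
  intro G _ _ θ hθ f hc y hy hne r hr
  rcases s.eq_empty_or_nonempty with rfl | hs
  · simp
  obtain ⟨j, hj, hmin⟩ := s.exists_min_image b hs
  set t := s.erase j with ht
  have hts : t ⊂ s := Finset.erase_ssubset hj
  have hts' : ∀ i ∈ t, i ∈ s := fun i hi => Finset.mem_of_mem_erase hi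
  have htj : ∀ i ∈ t, i ≠ j := fun i hi => Finset.ne_of_mem_erase hi
  by_contra hlt
  push Not at hlt
  have hsum : b j + ∑ i ∈ t, b i = ∑ i ∈ s, b i := Finset.add_sum_erase s b hj
  -- the induction hypothesis for the parts
  have key : ∀ (H : Type) [Group H] [Fintype H], Group.IsSolvable H → ∀ (e : H →* X j)
      (ψ : H →* ℂˣ) (A : Finset ι), A ⊆ t →
      (∀ i ∈ A, part θ ((f j).comp e) ψ (f i (y i)) ≠ part θ ((f j).comp e) ψ 1) →
      ∀ n : ℕ, part θ ((f j).comp e) ψ 1 = n → ∑ i ∈ A, b i ≤ n := by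
    intro H _ _ hH e ψ A hA hne' n hn
    let C : Subgroup G := Subgroup.centralizer (Set.range ((f j).comp e))
    have hmem : ∀ i ∈ A, ∀ x, f i x ∈ C := by
      intro i hi x
      rw [Subgroup.mem_centralizer_iff]
      rintro _ ⟨h, rfl⟩
      exact (hc j hj i (hts' i (hA hi)) (htj i (hA hi)).symm (e h) x).eq
    let f' : ∀ i, X i →* C := fun i =>
      if h : i ∈ A then (f i).codRestrict C (hmem i h) else 1
    have hf' : ∀ i ∈ A, ∀ x, ((f' i x : C) : G) = f i x := by
      intro i hi x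
      simp only [f', dif_pos hi]
      rfl
    refine ih A (lt_of_le_of_lt hA hts) C (fun a => part θ ((f j).comp e) ψ (C.subtype a))
      (part_isSol hθ hH _ ψ C.subtype ?_) f' ?_ y (fun i hi => hy i (hts' i (hA hi))) ?_ n ?_
    · intro a h
      have h1 := Subgroup.mem_centralizer_iff.mp a.2 ((f j).comp e h) ⟨h, rfl⟩
      exact h1.symm
    · intro i hi k hk hik x z
      apply Subtype.ext
      rw [Subgroup.coe_mul, Subgroup.coe_mul, hf' i hi, hf' k hk]
      exact hc i (hts' i (hA hi)) k (hts' k (hA hk)) hik x z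
    · intro i hi
      change part θ ((f j).comp e) ψ ((f' i (y i) : C) : G) ≠ _
      rw [hf' i hi]
      exact hne' i hi
    · exact hn
  -- the characters `β i`
  have hβ : ∀ i ∈ t, ∃ β : Subgroup.zpowers (y i) →* ℂˣ, β ≠ 1 ∧
      part θ ((f i).comp (Subgroup.zpowers (y i)).subtype) β 1 ≠ 0 := by
    intro i hi
    have : Fintype (Subgroup.zpowers (y i) →* ℂˣ) := Fintype.ofFinite _
    by_contra hcon
    push Not at hcon
    apply hne i (hts' i hi)
    have h1 := sum_part (zpowers_comm (y i)) θ ((f i).comp (Subgroup.zpowers (y i)).subtype) 1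
      ⟨y i, Subgroup.mem_zpowers _⟩
    have h2 := sum_part_one (zpowers_comm (y i)) θ
      ((f i).comp (Subgroup.zpowers (y i)).subtype) 1
    rw [one_mul] at h1
    have h3 : θ (f i (y i)) = θ 1 := by
      have h4 : θ (f i (y i)) = _ := h1
      rw [h4, h2]
      refine Finset.sum_congr rfl fun β _ => ?_
      by_cases hβ1 : β = 1
      · rw [hβ1]; simp
      · rw [hcon β hβ1, zero_mul]
    exact h3
  choose! β hβ1 hβ0 using hβ
  let φ : ∀ i, X j → ℂ := fun i c =>
    part θ ((f i).comp (Subgroup.zpowers (y i)).subtype) (β i) (f j c)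
  have hφ : ∀ i ∈ t, IsSolHeilbronn (φ i) := fun i hi =>
    part_isSol hθ (sol_zpowers (y i)) _ (β i) (f j)
      (fun a h => hc j hj i (hts' i hi) (htj i hi).symm a h)
  have hφ1 : ∀ i, φ i 1 = part θ ((f i).comp (Subgroup.zpowers (y i)).subtype) (β i) 1 := by
    intro i
    change part θ _ (β i) (f j 1) = _
    rw [map_one]
  -- constituents of `φ i` give nonconstant parts
  have hK : ∀ (H : Type) [Group H] [Fintype H], Group.IsSolvable H → ∀ (e : H →* X j)
      (ψ : H →* ℂˣ), ∀ i ∈ t, ∑ h : H, φ i (e h) * (((ψ h)⁻¹ : ℂˣ) : ℂ) ≠ 0 →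
      part θ ((f j).comp e) ψ (f i (y i)) ≠ part θ ((f j).comp e) ψ 1 := by
    intro H _ _ hH e ψ i hi hne' heq
    apply hne'
    have hsol : IsSolHeilbronn (fun a : X i => part θ ((f j).comp e) ψ (f i a)) :=
      part_isSol hθ hH _ ψ (f i) (fun a h => hc i (hts' i hi) j hj (htj i hi) a (e h))
    have hconst : ∀ z : Subgroup.zpowers (y i), part θ ((f j).comp e) ψ (f i z) =
        part θ ((f j).comp e) ψ 1 := by
      intro z
      have h1 := const_zpowers hsol (y := y i) (by simpa using heq) z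
      simpa using h1
    have h1 := part_part θ ((f j).comp e) ((f i).comp (Subgroup.zpowers (y i)).subtype)
      (fun x z => hc j hj i (hts' i hi) (htj i hi).symm (e x) z) ψ (β i)
    have h2 : ∑ z : Subgroup.zpowers (y i), part θ ((f j).comp e) ψ
        ((f i).comp (Subgroup.zpowers (y i)).subtype z) * (((β i z)⁻¹ : ℂˣ) : ℂ) = 0 := by
      have h3 : (β i)⁻¹ ≠ 1 := by
        intro h
        apply hβ1 i hi
        refine MonoidHom.ext fun z => ?_
        have h4 := DFunLike.congr_fun h z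
        simpa using h4
      have h4 := sum_char h3
      rw [Finset.sum_congr rfl (g := fun z : Subgroup.zpowers (y i) =>
        part θ ((f j).comp e) ψ 1 * ((((β i)⁻¹ : _ →* ℂˣ) z : ℂˣ) : ℂ)) (fun z _ => ?_),
        ← Finset.mul_sum, h4, mul_zero]
      change part θ ((f j).comp e) ψ (f i z) * (((β i z)⁻¹ : ℂˣ) : ℂ) = _
      rw [hconst z]
      rfl
    rw [h2, mul_zero] at h1
    have hH0 : (Nat.card H : ℂ) ≠ 0 := by exact_mod_cast Nat.card_pos.ne'
    have h5 := (mul_eq_zero.mp h1.symm).resolve_left (inv_ne_zero hH0)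
    exact h5
  -- uniqueness
  have huniq : ∀ c : X j, ∀ i ∈ t, ∀ μ μ' : Subgroup.zpowers c →* ℂˣ,
      part θ ((f j).comp (Subgroup.zpowers c).subtype) μ (f i (y i)) ≠
        part θ ((f j).comp (Subgroup.zpowers c).subtype) μ 1 →
      part θ ((f j).comp (Subgroup.zpowers c).subtype) μ' (f i (y i)) ≠
        part θ ((f j).comp (Subgroup.zpowers c).subtype) μ' 1 → μ = μ' := by
    intro c i₀ hi₀ μ₁ μ₂ h1 h2
    by_contra hne12
    have : Fintype (Subgroup.zpowers c →* ℂˣ) := Fintype.ofFinite _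
    choose p hp using fun μ : Subgroup.zpowers c →* ℂˣ =>
      part_nat hθ (sol_zpowers c) ((f j).comp (Subgroup.zpowers c).subtype) μ
    have hpsum : ∑ μ, p μ = r := by
      have h3 := sum_part_one (zpowers_comm c) θ ((f j).comp (Subgroup.zpowers c).subtype) 1
      rw [hr] at h3
      have h4 : (r : ℂ) = ((∑ μ, p μ : ℕ) : ℂ) := by
        rw [h3, Nat.cast_sum]
        exact Finset.sum_congr rfl fun μ _ => hp μ
      exact_mod_cast h4.symm
    let In : (Subgroup.zpowers c →* ℂˣ) → ι → Prop := fun μ i =>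
      part θ ((f j).comp (Subgroup.zpowers c).subtype) μ (f i (y i)) ≠
        part θ ((f j).comp (Subgroup.zpowers c).subtype) μ 1
    have hle : ∑ μ, ∑ i ∈ t, (if In μ i then b i else 0) ≤ r := by
      rw [← hpsum]
      refine Finset.sum_le_sum fun μ _ => ?_
      rw [← Finset.sum_filter]
      exact key _ (sol_zpowers c) (Subgroup.zpowers c).subtype μ (t.filter (In μ))
        (Finset.filter_subset _ _) (fun i hi => (Finset.mem_filter.mp hi).2) (p μ) (hp μ)
    rw [Finset.sum_comm] at hle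
    have hge : ∀ i ∈ t, b i ≤ ∑ μ, (if In μ i then b i else 0) := by
      intro i hi
      obtain ⟨μ, hμ⟩ : ∃ μ, In μ i := by
        by_contra hcon
        push Not at hcon
        apply hne i (hts' i hi)
        rw [sum_part_one (zpowers_comm c) θ ((f j).comp (Subgroup.zpowers c).subtype) (f i (y i)),
          sum_part_one (zpowers_comm c) θ ((f j).comp (Subgroup.zpowers c).subtype) 1]
        refine Finset.sum_congr rfl fun μ _ => ?_
        have := hcon μ
        simp only [In, ne_eq, not_not] at this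
        exact this
      have h3 : (if In μ i then b i else 0) ≤ ∑ μ, (if In μ i then b i else 0) :=
        Finset.single_le_sum (f := fun μ => if In μ i then b i else 0)
          (fun _ _ => Nat.zero_le _) (Finset.mem_univ μ)
      rwa [if_pos hμ] at h3
    have hge2 : b i₀ + b i₀ ≤ ∑ μ, (if In μ i₀ then b i₀ else 0) := by
      have h3 : ∑ μ ∈ ({μ₁, μ₂} : Finset _), (if In μ i₀ then b i₀ else 0)
          ≤ ∑ μ, (if In μ i₀ then b i₀ else 0) :=
        Finset.sum_le_sum_of_subset (Finset.subset_univ _)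
      rw [Finset.sum_pair hne12, if_pos h1, if_pos h2] at h3
      exact h3
    have hge3 : b i₀ + ∑ i ∈ t, b i ≤ ∑ i ∈ t, ∑ μ, (if In μ i then b i else 0) := by
      rw [← Finset.add_sum_erase t b hi₀, ← Finset.add_sum_erase t _ hi₀, ← add_assoc]
      exact Nat.add_le_add hge2 (Finset.sum_le_sum fun i hi => hge i (Finset.mem_of_mem_erase hi))
    have hmin' := hmin i₀ (hts' i₀ hi₀)
    omega
  -- absolute values
  have hnorm : ∀ i ∈ t, ∀ c, ‖φ i c‖ = ‖φ i 1‖ := by
    intro i hi c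
    have : Fintype (Subgroup.zpowers c →* ℂˣ) := Fintype.ofFinite _
    let m : (Subgroup.zpowers c →* ℂˣ) → ℂ := fun μ => (Nat.card (Subgroup.zpowers c) : ℂ)⁻¹ *
      ∑ x : Subgroup.zpowers c, φ i x * (((μ x)⁻¹ : ℂˣ) : ℂ)
    have hm : ∀ μ, m μ ≠ 0 → part θ ((f j).comp (Subgroup.zpowers c).subtype) μ (f i (y i)) ≠
        part θ ((f j).comp (Subgroup.zpowers c).subtype) μ 1 := by
      intro μ hμ
      refine hK _ (sol_zpowers c) (Subgroup.zpowers c).subtype μ i hi ?_
      intro h0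
      apply hμ
      change (Nat.card (Subgroup.zpowers c) : ℂ)⁻¹ *
        ∑ x : Subgroup.zpowers c, φ i x * (((μ x)⁻¹ : ℂˣ) : ℂ) = 0
      have h0' : ∑ x : Subgroup.zpowers c, φ i x * (((μ x)⁻¹ : ℂˣ) : ℂ) = 0 := h0
      rw [h0', mul_zero]
    have hinv : ∀ x : Subgroup.zpowers c, φ i x = ∑ μ, m μ * ((μ x : ℂˣ) : ℂ) := fun x =>
      fourier_inv (zpowers_comm c) (fun x : Subgroup.zpowers c => φ i x) x
    obtain ⟨μ₀, hμ₀⟩ : ∃ μ, m μ ≠ 0 := by
      by_contra hcon
      push Not at hcon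
      apply hβ0 i hi
      rw [← hφ1]
      have h3 := hinv 1
      rw [OneMemClass.coe_one] at h3
      rw [h3]
      exact Finset.sum_eq_zero fun μ _ => by rw [hcon μ, zero_mul]
    have hone : ∀ x : Subgroup.zpowers c, φ i x = m μ₀ * ((μ₀ x : ℂˣ) : ℂ) := by
      intro x
      rw [hinv x]
      refine Finset.sum_eq_single μ₀ (fun μ _ hμ => ?_) (fun h => absurd (Finset.mem_univ _) h)
      by_cases h0 : m μ = 0
      · rw [h0, zero_mul]
      · exact absurd (huniq c i hi μ μ₀ (hm μ h0) (hm μ₀ hμ₀)) hμ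
    have h3 := hone ⟨c, Subgroup.mem_zpowers c⟩
    have h4 := hone 1
    rw [map_one, Units.val_one, mul_one, OneMemClass.coe_one] at h4
    have h5 : ‖((μ₀ ⟨c, Subgroup.mem_zpowers c⟩ : ℂˣ) : ℂ)‖ = 1 :=
      Pool.Agent.H302R2.norm_char μ₀ _
    have h3' : φ i c = m μ₀ * ((μ₀ ⟨c, Subgroup.mem_zpowers c⟩ : ℂˣ) : ℂ) := h3
    rw [h3', h4, norm_mul, h5, mul_one]
  have hν : ∀ i ∈ t, ∃ (ν : X j →* ℂˣ) (d : ℕ), 0 < d ∧ ∀ c, φ i c = d * ((ν c : ℂˣ) : ℂ) := by
    intro i hi
    obtain ⟨d, hd⟩ := (hφ i hi).exists_deg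
    have hd0 : 0 < d := by
      rcases Nat.eq_zero_or_pos d with h0 | h0
      · exfalso
        apply hβ0 i hi
        rw [← hφ1, hd, h0, Nat.cast_zero]
      · exact h0
    obtain ⟨ν, hν⟩ := scalar_lin (hφ i hi) hd0 hd (fun c => by
      rw [hnorm i hi c, hd, Complex.norm_natCast])
    exact ⟨ν, d, hd0, hν⟩
  choose! ν d hd0 hν using hν
  -- the remaining function
  have hBr : ∑ i ∈ t, b i ≤ r := ih t hts G θ hθ f
    (fun i hi k hk => hc i (hts' i hi) k (hts' k hk)) y (fun i hi => hy i (hts' i hi))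
    (fun i hi => hne i (hts' i hi)) r hr
  let ε : X j → ℂ := fun c => θ (f j c) - ∑ i ∈ t, (b i : ℂ) * ((ν i c : ℂˣ) : ℂ)
  have hε : IsSolHeilbronn ε := by
    constructor
    · intro g h
      change θ (f j (h * g * h⁻¹)) - ∑ i ∈ t, (b i : ℂ) * ((ν i (h * g * h⁻¹) : ℂˣ) : ℂ) =
        θ (f j g) - ∑ i ∈ t, (b i : ℂ) * ((ν i g : ℂˣ) : ℂ)
      rw [map_mul, map_mul, map_inv, hθ.conj]
      congr 1
      refine Finset.sum_congr rfl fun i _ => ?_
      rw [map_mul, map_mul, map_inv, mul_comm (ν i h), mul_inv_cancel_right]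
    · intro H hH ψ
      have : Fintype H := Fintype.ofFinite _
      obtain ⟨n, hn⟩ := part_nat hθ hH ((f j).comp H.subtype) ψ
      have hH0 : (Nat.card H : ℂ) ≠ 0 := by exact_mod_cast Nat.card_pos.ne'
      have hA : ∑ i ∈ t.filter (fun i => (ν i).comp H.subtype = ψ), b i ≤ n := by
        refine key H hH H.subtype ψ _ (Finset.filter_subset _ _) (fun i hi => ?_) n hn
        obtain ⟨hit, hi2⟩ := Finset.mem_filter.mp hi
        refine hK H hH H.subtype ψ i hit ?_
        have h1 : ∑ h : H, φ i (H.subtype h) * (((ψ h)⁻¹ : ℂˣ) : ℂ) =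
            d i * (Nat.card H : ℂ) := by
          rw [← sum_char_self ψ, Finset.mul_sum]
          refine Finset.sum_congr rfl fun h _ => ?_
          have h2 : ν i (H.subtype h) = ψ h := DFunLike.congr_fun hi2 h
          rw [hν i hit, h2, mul_assoc]
        rw [h1]
        have := hd0 i hit
        exact mul_ne_zero (by exact_mod_cast this.ne') hH0
      refine ⟨n - ∑ i ∈ t.filter (fun i => (ν i).comp H.subtype = ψ), b i, ?_⟩
      rw [finsum_eq_sum_of_fintype, Nat.cast_sub hA, sub_mul, Nat.cast_sum, Finset.sum_mul]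
      have h1 : ∑ h : H, θ (f j h) * (((ψ h)⁻¹ : ℂˣ) : ℂ) = n * (Nat.card H : ℂ) := by
        rw [← hn]
        unfold part
        simp only [one_mul]
        rw [mul_comm ((Nat.card H : ℂ)⁻¹), mul_assoc, inv_mul_cancel₀ hH0, mul_one]
        rfl
      have h2 : ∀ i, ∑ h : H, (b i : ℂ) * ((ν i h : ℂˣ) : ℂ) * (((ψ h)⁻¹ : ℂˣ) : ℂ) =
          if (ν i).comp H.subtype = ψ then (b i : ℂ) * (Nat.card H : ℂ) else 0 := by
        intro i
        split_ifs with h
        · rw [← sum_char_self ψ, Finset.mul_sum]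
          refine Finset.sum_congr rfl fun x _ => ?_
          have h3 : ν i x = ψ x := DFunLike.congr_fun h x
          rw [h3, mul_assoc]
        · have h3 := sum_char_char ((ν i).comp H.subtype) ψ h
          have h4 : ∑ h : H, (b i : ℂ) * ((ν i h : ℂˣ) : ℂ) * (((ψ h)⁻¹ : ℂˣ) : ℂ) =
              (b i : ℂ) * ∑ h : H, ((((ν i).comp H.subtype) h : ℂˣ) : ℂ) *
                (((ψ h)⁻¹ : ℂˣ) : ℂ) := by
            rw [Finset.mul_sum]
            exact Finset.sum_congr rfl fun x _ => by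
              rw [mul_assoc]; rfl
          rw [h4, h3, mul_zero]
      change ∑ h : H, (θ (f j h) - ∑ i ∈ t, (b i : ℂ) * ((ν i h : ℂˣ) : ℂ)) *
        (((ψ h)⁻¹ : ℂˣ) : ℂ) = _
      simp only [sub_mul, Finset.sum_mul]
      rw [Finset.sum_sub_distrib, h1, Finset.sum_comm, Finset.sum_congr rfl (fun i _ => h2 i),
        Finset.sum_filter]
  have hε1 : ε 1 = ((r - ∑ i ∈ t, b i : ℕ) : ℂ) := by
    change θ (f j 1) - ∑ i ∈ t, (b i : ℂ) * ((ν i 1 : ℂˣ) : ℂ) = _
    rw [map_one, hr, Nat.cast_sub hBr, Nat.cast_sum]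
    congr 1
    refine Finset.sum_congr rfl fun i _ => ?_
    rw [map_one, Units.val_one, mul_one]
  have hfin := hb j ε hε _ (by omega) hε1 (y j) (hy j hj)
  apply hne j hj
  have h1 : θ (f j (y j)) - ∑ i ∈ t, (b i : ℂ) * ((ν i (y j) : ℂˣ) : ℂ) =
      θ (f j 1) - ∑ i ∈ t, (b i : ℂ) * ((ν i 1 : ℂˣ) : ℂ) := hfin
  have h2 : ∑ i ∈ t, (b i : ℂ) * ((ν i (y j) : ℂˣ) : ℂ) =
      ∑ i ∈ t, (b i : ℂ) * ((ν i 1 : ℂˣ) : ℂ) := by
    refine Finset.sum_congr rfl fun i _ => ?_
    rw [char_commutator (ν i) (hy j hj), map_one]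
  rw [h2, map_one] at h1
  exact sub_left_injective h1

end Pool.Agent.H377.AD
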