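import Mathlib
import Pool.Agent.H377.AD.Add

/-!
# The kernel theorem for class functions with multiplicities on solvable subgroups
-/

set_option autoImplicit false
set_option linter.unusedSectionVars false

namespace Pool.Agent.H377.AD

open Pool.Agent.H302R2 Pool.Agent.H302R3 Pool.Agent.H302R5 Pool.Agent.H541R3.ARS

/-- **Kernel theorem.** If `θ` is constant on the normal subgroup `N`, then it is constant on the
cosets of `N`. -/
theorem kernel_aux : ∀ (k : ℕ) (G : Type) [Group G] [Finite G] (θ : G → ℂ), IsSolHeilbronn θ →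
    ∀ N : Subgroup G, N.Normal → Nat.card N = k → (∀ n ∈ N, θ n = θ 1) →
    ∀ n ∈ N, ∀ x, θ (n * x) = θ x := by
  classical
  intro k
  induction k using Nat.strong_induction_on with
  | _ k ih =>
  intro G _ _ θ hθ N hN hk hc
  refine Pool.Agent.E8helper9.KT.coset_const N (F := θ) (fun n _ y => hθ.conj y n) ?_
  intro p hp Q hQN hQ hQ1 n hn hnQ y hyQ
  have : Fact p.Prime := ⟨hp⟩
  set H : Subgroup G := Subgroup.normalizer (Q : Set G) with hH
  have hQH : Q ≤ H := Subgroup.le_normalizer
  have : Fintype H := Fintype.ofFinite _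
  have hQn : (Q.subgroupOf H).Normal := Subgroup.normal_subgroupOf_of_le_normalizer le_rfl
  have hθH : IsSolHeilbronn (fun h : H => θ h) := hθ.comp H.subtype
  have hsolQ : Group.IsSolvable (Q.subgroupOf H) := by
    have h1 := pgroup_sol hp hQ
    exact Group.isSolvable_of_isSolvable_injective
      (f := (Subgroup.subgroupOfEquivOfLe hQH).toMonoidHom)
      (Subgroup.subgroupOfEquivOfLe hQH).injective
  let π : H →* H ⧸ Q.subgroupOf H := QuotientGroup.mk' _
  have hπ : Function.Surjective π := QuotientGroup.mk'_surjective _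
  have hconst : ∀ x y : H, π x = π y → (fun h : H => θ h) x = (fun h : H => θ h) y := by
    intro x y hxy
    have h1 : x⁻¹ * y ∈ Q.subgroupOf H := by
      have h2 : (QuotientGroup.mk x : H ⧸ Q.subgroupOf H) = QuotientGroup.mk y := hxy
      exact QuotientGroup.eq.mp h2
    have h2 := const_move_sol hθH (Q.subgroupOf H) hsolQ x
      (fun d hd => hQn.conj_mem d hd x) (fun d hd => by
        have h3 : (d : G) ∈ Q := hd
        exact hc _ (hQN h3)) (x⁻¹ * y) h1
    rw [mul_inv_cancel_left] at h2
    exact h2.symm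
  have hpush := push_isSol_of_const hπ hθH hconst
  have hval := push_eq_of_const π hconst
  let N' : Subgroup (H ⧸ Q.subgroupOf H) := (N.subgroupOf H).map π
  have hN' : N'.Normal := Subgroup.Normal.map inferInstance π hπ
  have hcard : Nat.card N' < k := by
    have h1 : Nat.card (N.subgroupOf H) ≤ Nat.card N := by
      refine Nat.card_le_card_of_injective (fun x : N.subgroupOf H => (⟨x, x.2⟩ : N)) ?_
      intro a b hab
      have h2 : ((a : H) : G) = ((b : H) : G) := congrArg (fun x : N => (x : G)) hab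
      exact Subtype.ext (Subtype.ext h2)
    let ρ : N.subgroupOf H →* N' := (π.comp (N.subgroupOf H).subtype).codRestrict N'
      (fun x => ⟨x, x.2, rfl⟩)
    have hρs : Function.Surjective ρ := by
      rintro ⟨_, x, hx, rfl⟩
      exact ⟨⟨x, hx⟩, rfl⟩
    have h2 : Nat.card (N.subgroupOf H) = Nat.card ρ.ker * Nat.card N' := card_eq_ker_mul hρs
    have h3 : 1 < Nat.card ρ.ker := by
      obtain ⟨q, hq1⟩ := Subgroup.ne_bot_iff_exists_ne_one.mp hQ1
      · rw [Finite.one_lt_card_iff_nontrivial]
        refine ⟨1, ⟨⟨⟨q, hQH q.2⟩, hQN q.2⟩, ?_⟩, ?_⟩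
        · rw [MonoidHom.mem_ker]
          apply Subtype.ext
          change (QuotientGroup.mk (⟨q, hQH q.2⟩ : H) : H ⧸ Q.subgroupOf H) = 1
          rw [QuotientGroup.eq_one_iff]
          exact q.2
        · intro h
          apply hq1
          have h4 := congrArg Subtype.val (congrArg Subtype.val (congrArg Subtype.val h))
          exact Subtype.ext h4.symm
    have h4 : 0 < Nat.card N' := Nat.card_pos
    nlinarith
  have key := ih (Nat.card N') hcard (H ⧸ Q.subgroupOf H) (push π (fun h : H => θ h)) hpush N' hN'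
    rfl (by
      rintro _ ⟨x, hx, rfl⟩
      have h1 := hval x
      have h2 := hval 1
      rw [map_one] at h2
      rw [h1, h2]
      exact hc _ hx) (π ⟨n, hnQ⟩) ⟨⟨n, hnQ⟩, hn, rfl⟩ (π ⟨y, hyQ⟩)
  rw [← map_mul, hval, hval] at key
  exact key

theorem kernel_sol {G : Type} [Group G] [Finite G] {θ : G → ℂ} (hθ : IsSolHeilbronn θ)
    (N : Subgroup G) (hN : N.Normal) (hc : ∀ n ∈ N, θ n = θ 1) (n : G) (hn : n ∈ N) (x : G) :
    θ (n * x) = θ x := kernel_aux _ G θ hθ N hN rfl hc n hn x

end Pool.Agent.H377.AD
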