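import Mathlib
import Pool.Agent.H377.AD.Ker

/-!
# Families of commuting subgroups permuted transitively, chains of normal subgroups
-/

set_option autoImplicit false
set_option linter.unusedSectionVars false

namespace Pool.Agent.H377.AD

open Pool.Agent.H302R2 Pool.Agent.H302R3 Pool.Agent.H302R5 Pool.Agent.H541R3.ARS

section

variable {G : Type} [Group G]

lemma map_conj {A B : Subgroup G} {g : G} (h : ∀ x, x ∈ A ↔ g * x * g⁻¹ ∈ B) :
    A.map (MulAut.conj g).toMonoidHom = B := by
  ext y
  constructor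
  · rintro ⟨x, hx, rfl⟩
    exact (h x).mp hx
  · intro hy
    refine ⟨g⁻¹ * y * g, (h _).mpr ?_, ?_⟩
    · have e : g * (g⁻¹ * y * g) * g⁻¹ = y := by group
      rw [e]; exact hy
    · change g * (g⁻¹ * y * g) * g⁻¹ = y
      group

/-- the subgroup generated by the commutator subgroups is normal -/
lemma Family.normal {r : ℕ} {ι : Type} {X : ι → Subgroup G} (h : Family r X) :
    (⨆ i, ⁅X i, X i⁆ : Subgroup G).Normal := by
  constructor
  intro n hn g
  have h1 : (⨆ i, ⁅X i, X i⁆ : Subgroup G).map (MulAut.conj g).toMonoidHom ≤ ⨆ i, ⁅X i, X i⁆ := by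
    rw [Subgroup.map_iSup]
    refine iSup_le fun i => ?_
    obtain ⟨j, hj⟩ := h.perm g i
    rw [Subgroup.map_commutator, map_conj hj]
    exact le_iSup (fun i => ⁅X i, X i⁆) j
  exact h1 ⟨n, hn, rfl⟩

lemma map_commutator_top (A : Subgroup G) : (commutator A).map A.subtype = ⁅A, A⁆ := by
  rw [commutator_def, Subgroup.map_commutator, ← MonoidHom.range_eq_map, Subgroup.range_subtype]

/-- constancy on the subgroup generated by commuting subgroups -/
lemma const_iSup [Finite G] {θ : G → ℂ} (hθ : IsSolHeilbronn θ) {ι : Type} [Finite ι]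
    (A : ι → Subgroup G) (hc : ∀ i j, i ≠ j → ∀ x ∈ A i, ∀ y ∈ A j, x * y = y * x)
    (hA : ∀ i, ∀ x ∈ A i, θ x = θ 1) : ∀ x ∈ (⨆ i, A i : Subgroup G), θ x = θ 1 := by
  classical
  have : Fintype ι := Fintype.ofFinite _
  have key : ∀ s : Finset ι, ∀ x ∈ (⨆ i ∈ s, A i : Subgroup G), θ x = θ 1 := by
    intro s
    induction s using Finset.induction_on with
    | empty =>
      intro x hx
      simp only [Finset.notMem_empty, not_false_eq_true, iSup_neg, iSup_bot,
        Subgroup.mem_bot] at hx
      rw [hx]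
    | insert i s hi ih =>
      intro x hx
      rw [Finset.iSup_insert] at hx
      have hcomm : ∀ (a : A i) (b : (⨆ i ∈ s, A i : Subgroup G)),
          Commute ((A i).subtype a) ((⨆ i ∈ s, A i : Subgroup G).subtype b) := by
        intro a b
        have h1 : (⨆ i ∈ s, A i : Subgroup G) ≤ Subgroup.centralizer {(a : G)} := by
          refine iSup₂_le fun k hk y hy => ?_
          rw [Subgroup.mem_centralizer_iff]
          intro z hz
          rw [Set.mem_singleton_iff.mp hz]
          exact hc i k (fun h => hi (h ▸ hk)) a a.2 y hy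
        exact Subgroup.mem_centralizer_iff.mp (h1 b.2) a rfl
      have h2 := MonoidHom.noncommCoprod_range (A i).subtype
        (⨆ i ∈ s, A i : Subgroup G).subtype hcomm
      rw [Subgroup.range_subtype, Subgroup.range_subtype] at h2
      rw [← h2] at hx
      obtain ⟨⟨a, b⟩, rfl⟩ := hx
      rw [MonoidHom.noncommCoprod_apply]
      rw [hθ.mul_of_comm (hcomm a b).eq (ih _ b.2)]
      exact hA i _ a.2
  intro x hx
  refine key Finset.univ x ?_
  simpa using hx

/-- constancy on the commutator subgroups of a family -/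
theorem Family.const [Finite G] {r : ℕ} {ι : Type} [Finite ι] {X : ι → Subgroup G}
    (h : Family r X) {θ : G → ℂ} (hθ : IsSolHeilbronn θ) {r' : ℕ} (hr' : r' ≤ r) (h1 : θ 1 = r') :
    ∀ x ∈ (⨆ i, ⁅X i, X i⁆ : Subgroup G), θ x = θ 1 := by
  classical
  have : Fintype ι := Fintype.ofFinite _
  obtain ⟨b, hb, hlt⟩ := h.rigid
  have hex : ∃ i, ∀ x ∈ commutator (X i), θ x = θ 1 := by
    by_contra hcon
    push Not at hcon
    choose y hy hne using hcon
    have h2 := additivity (b := fun _ => b) hb Finset.univ G θ hθ (fun i => (X i).subtype)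
      (fun i _ j _ hij x z => h.comm i j hij x x.2 z z.2) y (fun i _ => hy i) (fun i _ => hne i) r' h1
    rw [Finset.sum_const, Finset.card_univ, smul_eq_mul, ← Nat.card_eq_fintype_card,
      mul_comm] at h2
    omega
  obtain ⟨i, hi⟩ := hex
  apply const_iSup hθ
  · intro j k hjk x hx y hy
    exact h.comm j k hjk x (Subgroup.commutator_le_self _ hx) y (Subgroup.commutator_le_self _ hy)
  · intro j x hx
    obtain ⟨g, hg⟩ := h.trans i j
    have h2 : ⁅X j, X j⁆ = (commutator (X i)).map ((MulAut.conj g).toMonoidHom.comp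
        (X i).subtype) := by
      rw [← Subgroup.map_map, map_commutator_top, Subgroup.map_commutator, map_conj hg]
    rw [h2] at hx
    obtain ⟨z, hz, rfl⟩ := hx
    change θ (g * z * g⁻¹) = θ 1
    rw [hθ.conj, hi z hz]

end

lemma Layered.normal {G : Type} [Group G] {r : ℕ} {M : Subgroup G} (h : Layered r M) :
    M.Normal := by
  induction h with
  | bot => infer_instance
  | step π hπ hM X hX ih =>
    have := hX.normal
    infer_instance

/-- the first layer -/
lemma Family.layered {G : Type} [Group G] {r : ℕ} {ι : Type} [Finite ι] {X : ι → Subgroup G}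
    (hX : Family r X) : Layered r (⨆ i, ⁅X i, X i⁆ : Subgroup G) := by
  have h := Layered.step (MonoidHom.id G) Function.surjective_id (by
    have : (MonoidHom.id G).ker = ⊥ := (MonoidHom.ker_eq_bot_iff _).mpr Function.injective_id
    rw [this]
    exact Layered.bot) X hX
  rwa [Subgroup.comap_id] at h

lemma const_of_ker {G P : Type} [Group G] [Group P] {θ : G → ℂ} (π : G →* P)
    (h : ∀ m ∈ π.ker, ∀ x, θ (m * x) = θ x) (x y : G) (hxy : π x = π y) : θ x = θ y := by
  have h2 : y * x⁻¹ ∈ π.ker := by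
    rw [MonoidHom.mem_ker, map_mul, map_inv, hxy, mul_inv_cancel]
  have h3 := h _ h2 x
  rw [inv_mul_cancel_right] at h3
  exact h3.symm

theorem Layered.inv {G : Type} [Group G] [Finite G] {r : ℕ} {M : Subgroup G} (h : Layered r M)
    {θ : G → ℂ} (hθ : IsSolHeilbronn θ) {r' : ℕ} (hr' : r' ≤ r) (h1 : θ 1 = r') :
    ∀ m ∈ M, ∀ x, θ (m * x) = θ x := by
  classical
  have : Fintype G := Fintype.ofFinite _
  induction h with
  | bot =>
    intro m hm x
    rw [Subgroup.mem_bot.mp hm, one_mul]
  | step π hπ hM X hX ih =>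
    intro m hm x
    have : Finite _ := Finite.of_surjective π hπ
    have hc := const_of_ker π ih
    have hp := push_isSol_of_const hπ hθ hc
    have hv := push_eq_of_const π hc
    obtain ⟨r'', hr'', hr1⟩ := push_deg_le hθ hp h1
    have h2 := kernel_sol hp _ hX.normal (hX.const hp (hr''.trans hr') hr1)
      (π m) hm (π x)
    rw [← map_mul, hv, hv] at h2
    exact h2

theorem good_wide_aux {r : ℕ} (G : Type) (hG : Group G) (h : Wide r G hG) :
    Finite G → Good r G := by
  classical
  induction h with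
  | sol G hG h =>
    intro hfin
    exact Good.of_sol h
  | ext G P hG hP π hπ hs hq ih =>
    intro hfin θ hθ r' hr' hr
    have : Fintype G := Fintype.ofFinite G
    have : Finite P := Finite.of_surjective π hπ
    have hp : IsSolHeilbronn (push π θ) := by
      refine push_isSol hπ hθ.conj fun V hV χ => ?_
      let ρ : V.comap π →* V :=
        { toFun := fun u => ⟨π u, u.2⟩
          map_one' := Subtype.ext (map_one _)
          map_mul' := fun a b => Subtype.ext (map_mul _ _ _) }
      have hs' : Group.IsSolvable (V.comap π) := by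
        let ι : π.ker →* V.comap π :=
          { toFun := fun n => ⟨n, by
              have h1 : π (n : G) = 1 := n.2
              rw [Subgroup.mem_comap, h1]
              exact one_mem V⟩
            map_one' := rfl
            map_mul' := fun _ _ => rfl }
        refine Group.isSolvable_of_ker_le_range ι ρ ?_
        intro x hx
        have hx' : π (x : G) = 1 := congrArg Subtype.val hx
        exact ⟨⟨x, hx'⟩, rfl⟩
      exact hθ.mult _ hs' (χ.comp ρ)
    obtain ⟨r'', hr'', hr1⟩ := push_deg_le hθ hp hr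
    obtain ⟨n, hn⟩ := ih inferInstance (push π θ) hp r'' (hr''.trans hr') hr1
    exact ⟨n, mult_of_push hπ hn⟩
  | fam G P hG hP π hπ X hX hD hq ih =>
    intro hfin θ hθ r' hr' hr
    have : Fintype G := Fintype.ofFinite G
    have : Finite P := Finite.of_surjective π hπ
    have hconst : ∀ n ∈ π.ker, θ n = θ 1 := by
      rw [hD]
      exact hX.const hθ hr' hr
    have hp : IsSolHeilbronn (push π θ) :=
      push_isSol_of_const hπ hθ (const_of_ker π (kernel_sol hθ π.ker inferInstance hconst))
    obtain ⟨r'', hr'', hr1⟩ := push_deg_le hθ hp hr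
    obtain ⟨n, hn⟩ := ih inferInstance (push π θ) hp r'' (hr''.trans hr') hr1
    exact ⟨n, mult_of_push hπ hn⟩

theorem good_wide {r : ℕ} (G : Type) [hG : Group G] [Finite G] (h : Wide r G hG) : Good r G :=
  good_wide_aux G hG h inferInstance

/-- Multiplicities on a subgroup, modulo a layered normal subgroup. -/
theorem mult_nat {G : Type} [Group G] [Finite G] {r : ℕ} {M : Subgroup G} (h : Layered r M)
    {θ : G → ℂ} (hθ : IsSolHeilbronn θ) {r' : ℕ} (hr' : r' ≤ r) (h1 : θ 1 = r')
    (H : Subgroup G) {P : Type} [Group P] (π : H →* P) (hπ : Function.Surjective π)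
    (hk : π.ker = M.subgroupOf H) (hH : Wide r P inferInstance) (ψ : H →* ℂˣ) :
    ∃ n : ℕ, ∑ᶠ h : H, θ h * (((ψ h)⁻¹ : ℂˣ) : ℂ) = (n : ℂ) * (Nat.card H : ℂ) := by
  classical
  have : Fintype H := Fintype.ofFinite _
  have : Finite P := Finite.of_surjective π hπ
  have hinv := h.inv hθ hr' h1
  by_cases hψ : ∀ m ∈ M.subgroupOf H, ψ m = 1
  · have hθ' := (hθ.comp H.subtype).twist ψ
    have hc := const_of_ker (θ := fun x : H => θ (H.subtype x) * (((ψ x)⁻¹ : ℂˣ) : ℂ)) π (by
      intro m hm x
      rw [hk] at hm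
      simp only [Subgroup.coe_subtype, map_mul, hψ m hm, one_mul,
        hinv (m : G) hm (x : G)])
    have hp := push_isSol_of_const hπ hθ' hc
    obtain ⟨r'', hr'', hr1⟩ := push_deg_le hθ' hp (r := r') (by simp [h1])
    obtain ⟨n, hn'⟩ := good_wide _ hH _ hp r'' (hr''.trans hr') hr1
    exact ⟨n, mult_of_push hπ hn'⟩
  · push Not at hψ
    obtain ⟨m, hm, hm1⟩ := hψ
    refine ⟨0, ?_⟩
    rw [finsum_eq_sum_of_fintype]
    have h2 : ∑ h : H, θ h * (((ψ h)⁻¹ : ℂˣ) : ℂ) =
        (((ψ m)⁻¹ : ℂˣ) : ℂ) * ∑ h : H, θ h * (((ψ h)⁻¹ : ℂˣ) : ℂ) := by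
      rw [Finset.mul_sum, ← Equiv.sum_comp (Equiv.mulLeft m)]
      refine Finset.sum_congr rfl fun x _ => ?_
      rw [Equiv.coe_mulLeft, map_mul, mul_inv_rev, Units.val_mul, Subgroup.coe_mul,
        hinv (m : G) hm (x : G)]
      ring
    have h3 : (((ψ m)⁻¹ : ℂˣ) : ℂ) ≠ 1 := by
      intro h4
      apply hm1
      rw [← inv_eq_one, ← Units.val_eq_one]; exact h4
    have h4 : (1 - (((ψ m)⁻¹ : ℂˣ) : ℂ)) * ∑ h : H, θ h * (((ψ h)⁻¹ : ℂˣ) : ℂ) = 0 := by
      rw [sub_mul, one_mul, ← h2, sub_self]
    rcases mul_eq_zero.mp h4 with h5 | h5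
    · exact absurd (sub_eq_zero.mp h5).symm h3
    · rw [h5]; simp

end Pool.Agent.H377.AD
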