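import Mathlib
import Pool.Agent.H377.AD.Fam

/-!
# Families of commuting subgroups: the quotient by the commutator subgroups, wreath products
-/

set_option autoImplicit false
set_option linter.unusedSectionVars false

namespace Pool.Agent.H377.AD

open Pool.Agent.H302R2 Pool.Agent.H302R3 Pool.Agent.H302R5 Pool.Agent.H541R3.ARS
open scoped commutatorElement

section

variable {G : Type} [Group G] {r : ℕ} {ι : Type} {X : ι → Subgroup G}

lemma Family.comm_le (h : Family r X) : ⁅(⨆ i, X i : Subgroup G), (⨆ i, X i : Subgroup G)⁆ ≤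
    ⨆ i, ⁅X i, X i⁆ := by
  have hn := h.normal
  set D : Subgroup G := ⨆ i, ⁅X i, X i⁆ with hD
  let π : G →* G ⧸ D := QuotientGroup.mk' D
  have h0 : ∀ i j, ∀ x ∈ X i, ∀ y ∈ X j, π x * π y = π y * π x := by
    intro i j x hx y hy
    by_cases hij : i = j
    · subst hij
      have h1 : ⁅x, y⁆ ∈ D := (le_iSup (fun i => ⁅X i, X i⁆) i) (Subgroup.commutator_mem_commutator hx hy)
      have h2 : π ⁅x, y⁆ = 1 := (QuotientGroup.eq_one_iff _).mpr h1
      rw [map_commutatorElement, commutatorElement_eq_one_iff_mul_comm] at h2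
      exact h2
    · rw [← map_mul, ← map_mul, h.comm i j hij x hx y hy]
  have h1 : ∀ j, ∀ y ∈ X j, ∀ x ∈ (⨆ i, X i : Subgroup G), π x * π y = π y * π x := by
    intro j y hy
    have h2 : (⨆ i, X i : Subgroup G) ≤ (Subgroup.centralizer {π y}).comap π := by
      refine iSup_le fun i x hx => ?_
      rw [Subgroup.mem_comap, Subgroup.mem_centralizer_singleton_iff]
      exact h0 i j x hx y hy
    intro x hx
    exact Subgroup.mem_centralizer_singleton_iff.mp (h2 hx)
  have h2 : ∀ x ∈ (⨆ i, X i : Subgroup G), ∀ y ∈ (⨆ i, X i : Subgroup G),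
      π x * π y = π y * π x := by
    intro x hx
    have h3 : (⨆ i, X i : Subgroup G) ≤ (Subgroup.centralizer {π x}).comap π := by
      refine iSup_le fun j y hy => ?_
      rw [Subgroup.mem_comap, Subgroup.mem_centralizer_singleton_iff]
      exact (h1 j y hy x hx).symm
    intro y hy
    exact (Subgroup.mem_centralizer_singleton_iff.mp (h3 hy)).symm
  rw [Subgroup.commutator_le]
  intro x hx y hy
  rw [← QuotientGroup.eq_one_iff]
  change π ⁅x, y⁆ = 1
  rw [map_commutatorElement, commutatorElement_eq_one_iff_mul_comm]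
  exact h2 x hx y hy

lemma Family.derived_le (h : Family r X) {k : ℕ}
    (hk : derivedSeries G k ≤ (⨆ i, X i : Subgroup G)) :
    derivedSeries G (k + 1) ≤ ⨆ i, ⁅X i, X i⁆ := by
  rw [derivedSeries_succ]
  exact (Subgroup.commutator_mono hk hk).trans h.comm_le

/-- subgroups modulo a normal subgroup with solvable quotient -/
lemma sol_of_derived {N : Subgroup G} {k : ℕ} (hk : derivedSeries G k ≤ N) (H : Subgroup G)
    {P : Type} [Group P] (π : H →* P) (hπ : Function.Surjective π)
    (hker : π.ker = N.subgroupOf H) : Group.IsSolvable P := by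
  rw [Group.isSolvable_def]
  refine ⟨k, ?_⟩
  rw [← map_derivedSeries_eq hπ, Subgroup.map_eq_bot_iff, hker]
  intro x hx
  rw [Subgroup.mem_subgroupOf]
  apply hk
  exact map_derivedSeries_le_derivedSeries (f := H.subtype) k ⟨x, hx, rfl⟩

end

section transport

lemma Rigid.of_surj {b : ℕ} {X Y : Type} [Group X] [Finite X] [Group Y] (h : Rigid b X)
    (e : X →* Y) (he : Function.Surjective e) : Rigid b Y := by
  intro ε hε n hn h1 y hy
  have : Finite Y := Finite.of_surjective e he
  have h2 : commutator Y = (commutator X).map e := by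
    rw [commutator_def, commutator_def, Subgroup.map_commutator, ← MonoidHom.range_eq_map,
      MonoidHom.range_eq_top.mpr he]
  rw [h2] at hy
  obtain ⟨x, hx, rfl⟩ := hy
  have h3 := h (fun x => ε (e x)) (hε.comp e) n hn (by rw [map_one]; exact h1) x hx
  simpa using h3

lemma Family.of_equiv {G P : Type} [Group G] [Finite P] [Group P] (e : G ≃* P) {r : ℕ} {ι : Type}
    {X : ι → Subgroup P} (h : Family r X) : Family r (fun i => (X i).comap e.toMonoidHom) where
  comm i j hij x hx y hy := by
    apply e.injective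
    rw [map_mul, map_mul]
    exact h.comm i j hij _ hx _ hy
  perm g i := by
    obtain ⟨j, hj⟩ := h.perm (e g) i
    refine ⟨j, fun x => ?_⟩
    rw [Subgroup.mem_comap, Subgroup.mem_comap]
    change e x ∈ X i ↔ e (g * x * g⁻¹) ∈ X j
    rw [hj, map_mul, map_mul, map_inv]
  trans i j := by
    obtain ⟨g, hg⟩ := h.trans i j
    refine ⟨e.symm g, fun x => ?_⟩
    rw [Subgroup.mem_comap, Subgroup.mem_comap]
    change e x ∈ X i ↔ e (e.symm g * x * (e.symm g)⁻¹) ∈ X j
    rw [hg, map_mul, map_mul, map_inv, MulEquiv.apply_symm_apply]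
  rigid := by
    obtain ⟨b, hb, hlt⟩ := h.rigid
    refine ⟨b, fun i => ?_, hlt⟩
    let f : X i →* (X i).comap e.toMonoidHom :=
      { toFun := fun x => ⟨e.symm x, by
          rw [Subgroup.mem_comap]
          change e (e.symm x) ∈ X i
          rw [MulEquiv.apply_symm_apply]
          exact x.2⟩
        map_one' := Subtype.ext (map_one e.symm)
        map_mul' := fun a b => Subtype.ext (map_mul e.symm _ _) }
    have : Finite (X i) := inferInstance
    refine (hb i).of_surj f ?_
    rintro ⟨x, hx⟩
    refine ⟨⟨e x, hx⟩, Subtype.ext ?_⟩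
    exact e.symm_apply_apply x

end transport

section wreath

open RegularWreathProduct

variable {T Q : Type} [Group T] [Group Q]

/-- the functions with values in `T`, in the wreath product -/
def base (T Q : Type) [Group T] [Group Q] : (Q → T) →* T ≀ᵣ Q where
  toFun a := ⟨a, 1⟩
  map_one' := rfl
  map_mul' a b := by
    ext1
    · funext x
      simp
    · simp

lemma base_left (a : Q → T) : (base T Q a).left = a := rfl
lemma base_right (a : Q → T) : (base T Q a).right = 1 := rfl

open Classical in
/-- the copy of `T` at `q` -/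
noncomputable def copy (T : Type) {Q : Type} [Group T] [Group Q] (q : Q) : T →* T ≀ᵣ Q :=
  (base T Q).comp (MonoidHom.mulSingle (fun _ : Q => T) q)

lemma copy_conj (w : T ≀ᵣ Q) (q : Q) (x : T) :
    w * copy T q x * w⁻¹ =
      copy T (w.right * q) (w.left (w.right * q) * x * (w.left (w.right * q))⁻¹) := by
  classical
  ext1
  · funext k
    simp only [copy, MonoidHom.coe_comp, Function.comp_apply, mul_left, mul_right, inv_left,
      Pi.mul_apply, base_left, base_right, MonoidHom.mulSingle_apply, mul_one, Pi.inv_apply,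
      mul_inv_cancel_left]
    by_cases hk : k = w.right * q
    · subst hk
      rw [inv_mul_cancel_left, Pi.mulSingle_eq_same, Pi.mulSingle_eq_same]
    · have h1 : w.right⁻¹ * k ≠ q := fun h => hk (by rw [← h, mul_inv_cancel_left])
      rw [Pi.mulSingle_eq_of_ne h1, Pi.mulSingle_eq_of_ne hk, mul_one, mul_inv_cancel]
  · simp [copy, base_right]

lemma copy_comm {q q' : Q} (hq : q ≠ q') (x y : T) :
    copy T q x * copy T q' y = copy T q' y * copy T q x := by
  classical
  unfold copy
  rw [MonoidHom.comp_apply, MonoidHom.comp_apply, ← map_mul, ← map_mul]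
  congr 1
  exact (Pi.mulSingle_commute (f := fun _ : Q => T) hq x y).eq

lemma wreath_family [Finite T] [Finite Q] {b r : ℕ} (hb : Rigid b T) (hr : r < b * Nat.card Q) :
    Family r (fun q : Q => (copy T q).range) where
  comm i j hij x hx y hy := by
    obtain ⟨x, rfl⟩ := hx
    obtain ⟨y, rfl⟩ := hy
    exact copy_comm hij x y
  perm w q := by
    have key : ∀ (w : T ≀ᵣ Q) (q : Q) (x : T ≀ᵣ Q), x ∈ (copy T q).range →
        w * x * w⁻¹ ∈ (copy T (w.right * q)).range := by
      rintro w q _ ⟨x, rfl⟩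
      exact ⟨_, (copy_conj w q x).symm⟩
    refine ⟨w.right * q, fun x => ⟨key w q x, fun h => ?_⟩⟩
    have h1 := key w⁻¹ _ _ h
    rw [inv_right, inv_mul_cancel_left, inv_inv] at h1
    have e : w⁻¹ * (w * x * w⁻¹) * w = x := by group
    rwa [e] at h1
  trans i j := by
    have key : ∀ (w : T ≀ᵣ Q) (q : Q) (x : T ≀ᵣ Q), x ∈ (copy T q).range →
        w * x * w⁻¹ ∈ (copy T (w.right * q)).range := by
      rintro w q _ ⟨x, rfl⟩
      exact ⟨_, (copy_conj w q x).symm⟩
    let w : T ≀ᵣ Q := ⟨1, j * i⁻¹⟩
    have hw : w.right * i = j := by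
      change j * i⁻¹ * i = j
      group
    refine ⟨w, fun x => ⟨fun h => ?_, fun h => ?_⟩⟩
    · have h1 := key w i x h
      rwa [hw] at h1
    · have h1 := key w⁻¹ _ _ h
      rw [← hw, inv_right, inv_mul_cancel_left, inv_inv] at h1
      have e : w⁻¹ * (w * x * w⁻¹) * w = x := by group
      rwa [e] at h1
  rigid := ⟨b, fun q => hb.of_surj (copy T q).rangeRestrict (copy T q).rangeRestrict_surjective, hr⟩

/-- the base group is generated by the copies -/
lemma base_le [Finite Q] (w : T ≀ᵣ Q) (hw : w.right = 1) :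
    w ∈ (⨆ q : Q, (copy T q).range : Subgroup (T ≀ᵣ Q)) := by
  classical
  have h1 : base T Q w.left = w := by
    ext1
    · rfl
    · rw [base_right, hw]
  rw [← h1]
  have h2 : w.left ∈ (⨆ q : Q, (copy T q).range : Subgroup (T ≀ᵣ Q)).comap (base T Q) := by
    refine Subgroup.pi_mem_of_mulSingle_mem _ fun q => ?_
    refine (le_iSup (fun q : Q => (copy T q).range) q) ⟨w.left q, ?_⟩
    unfold copy
    rw [MonoidHom.comp_apply]
    congr 1
  exact h2

lemma wreath_derived [Finite Q] (hQ : Group.IsSolvable Q) :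
    ∃ k, derivedSeries (T ≀ᵣ Q) k ≤ (⨆ q : Q, (copy T q).range : Subgroup (T ≀ᵣ Q)) := by
  obtain ⟨k, hk⟩ := (Group.isSolvable_def Q).mp hQ
  refine ⟨k, fun w hw => base_le w ?_⟩
  have h1 : rightHom w ∈ derivedSeries Q k :=
    map_derivedSeries_le_derivedSeries (f := (rightHom : T ≀ᵣ Q →* Q)) k ⟨w, hw, rfl⟩
  rw [hk, Subgroup.mem_bot] at h1
  exact h1

lemma wreath_commutator [Finite Q] (hQ : ∀ a b : Q, a * b = b * a) :
    commutator (T ≀ᵣ Q) ≤ (⨆ q : Q, (copy T q).range : Subgroup (T ≀ᵣ Q)) := by
  rw [commutator_def, Subgroup.commutator_le]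
  intro x _ y _
  apply base_le
  change rightHom ⁅x, y⁆ = 1
  rw [map_commutatorElement, commutatorElement_eq_one_iff_mul_comm]
  exact hQ _ _

end wreath

end Pool.Agent.H377.AD
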