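import Mathlib
import Pool.Agent.H377.AD.Quo
import Pool.Graph.R_pool_sql_team_seeded_3997aac3.Q7.RL.Model
import Pool.Graph.R_seed8.Y788.VRep

/-!
# Irreducible characters of metabelian groups are induced by linear characters
-/

set_option autoImplicit false
set_option linter.unusedSectionVars false

namespace Pool.Agent.H377.AD

open Pool.Agent.H302R2 Pool.Agent.H302R3 Pool.Agent.H302R5 Pool.Agent.H541R3.ARS
open Pool.Agent.H541R3.ART Pool.Agent.Q92.RT
open scoped commutatorElement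

section

variable {G : Type} [Group G] [Finite G]

/-- the kernel of an irreducible character -/
lemma irr_kernel {χ : G → ℂ} (hχ : χ ∈ Irr G) : ∃ Z : Subgroup G, Z.Normal ∧
    (∀ x, x ∈ Z ↔ χ x = χ 1) ∧ ∀ z ∈ Z, ∀ x, χ (z * x) = χ x := by
  obtain ⟨n, ρ, hρ, rfl⟩ := hχ
  have h1 : ∀ x, x ∈ (MonoidHom.ker ρ : Subgroup G) ↔ ρ.character x = ρ.character 1 := by
    intro x
    rw [MonoidHom.mem_ker]
    constructor
    · intro h
      change LinearMap.trace ℂ _ (ρ x) = LinearMap.trace ℂ _ (ρ 1)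
      rw [h, show ρ 1 = 1 from map_one ρ]
    · intro h
      exact Pool.Agent.Y788.V.rep_triv ρ h
  refine ⟨MonoidHom.ker ρ, inferInstance, h1, fun z hz x => ?_⟩
  change LinearMap.trace ℂ _ (ρ (z * x)) = LinearMap.trace ℂ _ (ρ x)
  rw [map_mul, MonoidHom.mem_ker.mp hz, one_mul]

/-- a linear constituent of the restriction to a subgroup which is abelian modulo the kernel -/
lemma exists_linear {χ : G → ℂ} (hχ : χ ∈ Irr G) {Z : Subgroup G} (hZ : Z.Normal)
    (hZ2 : ∀ z ∈ Z, ∀ x, χ (z * x) = χ x) (B : Subgroup G)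
    (hB : ∀ x ∈ B, ∀ y ∈ B, ⁅x, y⁆ ∈ Z) :
    ∃ l : B →* ℂˣ, ∑ᶠ b : B, χ b * (((l b)⁻¹ : ℂˣ) : ℂ) ≠ 0 := by
  classical
  have : Fintype B := Fintype.ofFinite B
  let N : Subgroup B := Z.subgroupOf B
  let π : B →* B ⧸ N := QuotientGroup.mk' N
  have hπ : Function.Surjective π := QuotientGroup.mk'_surjective N
  have hcomm : ∀ a b : B ⧸ N, a * b = b * a := by
    intro a b
    obtain ⟨x, rfl⟩ := hπ a
    obtain ⟨y, rfl⟩ := hπ b
    rw [← commutatorElement_eq_one_iff_mul_comm, ← map_commutatorElement]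
    change (QuotientGroup.mk ⁅x, y⁆ : B ⧸ N) = 1
    rw [QuotientGroup.eq_one_iff]
    exact hB x x.2 y y.2
  have : Fintype (B ⧸ N) := Fintype.ofFinite _
  have : Fintype ((B ⧸ N) →* ℂˣ) := Fintype.ofFinite _
  let F : B ⧸ N → ℂ := fun e => χ ((Function.surjInv hπ e : B) : G)
  have hF : ∀ b : B, F (π b) = χ b := by
    intro b
    refine const_of_ker (θ := fun b : B => χ b) π ?_ _ _ (Function.surjInv_eq hπ _)
    intro m hm x
    have hm' : (m : G) ∈ Z := by
      have h1 : (QuotientGroup.mk m : B ⧸ N) = 1 := hm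
      rw [QuotientGroup.eq_one_iff] at h1
      exact h1
    exact hZ2 _ hm' _
  have hχ1 : χ 1 ≠ 0 := by
    obtain ⟨d, hd, h1⟩ := Pool.Agent.W446.AS.irr_deg_pos hχ
    rw [h1]
    exact_mod_cast hd.ne'
  have h1 := fourier_inv hcomm F (π 1)
  rw [hF, OneMemClass.coe_one] at h1
  obtain ⟨ψ, -, hψ⟩ := Finset.exists_ne_zero_of_sum_ne_zero (h1 ▸ hχ1)
  refine ⟨ψ.comp π, ?_⟩
  rw [finsum_eq_sum_of_fintype]
  have h2 := sum_comp_surj π hπ (fun e => F e * (((ψ e)⁻¹ : ℂˣ) : ℂ))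
  have h3 : ∑ b : B, χ b * ((((ψ.comp π) b)⁻¹ : ℂˣ) : ℂ) =
      ∑ b : B, F (π b) * (((ψ (π b))⁻¹ : ℂˣ) : ℂ) :=
    Finset.sum_congr rfl fun b _ => by rw [hF]; rfl
  rw [h3, h2]
  refine mul_ne_zero (by exact_mod_cast Nat.card_pos.ne') ?_
  intro h4
  apply hψ
  rw [h4, mul_zero, zero_mul]

/-- the inertia argument -/
theorem induced_of_metabelian {χ : G → ℂ} (hχ : χ ∈ Irr G) {D : Subgroup G}
    (hD : ∀ x ∈ D, χ x = χ 1) (hG : ⁅commutator G, commutator G⁆ ≤ D) :
    ∃ (B : Subgroup G) (l : B →* ℂˣ), commutator G ≤ B ∧ χ = induced B l := by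
  classical
  have : Fintype G := Fintype.ofFinite G
  obtain ⟨Z, hZn, hZ1, hZ2⟩ := irr_kernel hχ
  -- a maximal subgroup containing the commutator subgroup and abelian modulo the kernel
  have hne : ({B : Subgroup G | commutator G ≤ B ∧ ∀ x ∈ B, ∀ y ∈ B, ⁅x, y⁆ ∈ Z} :
      Set (Subgroup G)).Nonempty := by
    refine ⟨commutator G, le_rfl, fun x hx y hy => ?_⟩
    rw [hZ1]
    exact hD _ (hG (Subgroup.commutator_mem_commutator hx hy))
  obtain ⟨B, hBmax⟩ := (Set.toFinite ({B : Subgroup G | commutator G ≤ B ∧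
    ∀ x ∈ B, ∀ y ∈ B, ⁅x, y⁆ ∈ Z} : Set (Subgroup G))).exists_maximal hne
  obtain ⟨hB1, hB2⟩ : commutator G ≤ B ∧ ∀ x ∈ B, ∀ y ∈ B, ⁅x, y⁆ ∈ Z := hBmax.prop
  have : Fintype B := Fintype.ofFinite B
  have hBn : B.Normal := by
    constructor
    intro x hx g
    have h1 : ⁅g, x⁆ ∈ B :=
      hB1 (Subgroup.commutator_mem_commutator (Subgroup.mem_top g) (Subgroup.mem_top x))
    have h2 := B.mul_mem h1 hx
    rwa [commutatorElement_def, inv_mul_cancel_right] at h2
  obtain ⟨l, hl⟩ := exists_linear hχ hZn hZ2 B hB2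
  refine ⟨B, l, hB1, ?_⟩
  choose! m hm using fun χ' (hχ' : χ' ∈ Irr G) => exists_mult hχ' B l
  have hmχ : m χ ≠ 0 := by
    intro h0
    apply hl
    rw [hm χ hχ, h0]
    simp
  have hB0 : (Nat.card B : ℂ) ≠ 0 := by exact_mod_cast Nat.card_pos.ne'
  have hG0 : (Nat.card G : ℂ) ≠ 0 := by exact_mod_cast Nat.card_pos.ne'
  have hpair : ∀ χ' ∈ Irr G, ∑ g, induced B l g * χ' g⁻¹ = (m χ' : ℂ) * Nat.card G :=
    fun χ' hχ' => induced_pair B l (fun g x => Irr.conj hχ' g x) (hm χ' hχ')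
  -- conjugation of `l`
  have hmem : ∀ (x : G) (b : B), x⁻¹ * b * x ∈ B := by
    intro x b
    have := hBn.conj_mem b b.2 x⁻¹
    rwa [inv_inv] at this
  let lc : G → (B →* ℂˣ) := fun x =>
    { toFun := fun b => l ⟨x⁻¹ * b * x, hmem x b⟩
      map_one' := by
        rw [← map_one l]
        congr 1
        apply Subtype.ext
        simp
      map_mul' := fun a b => by
        rw [← map_mul]
        congr 1
        apply Subtype.ext
        simp only [Subgroup.coe_mul]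
        group }
  have hlc : ∀ x (b : B), lc x b = l ⟨x⁻¹ * b * x, hmem x b⟩ := fun _ _ => rfl
  have hval : ∀ b : B, induced B l b = (Nat.card B : ℂ)⁻¹ * ∑ x : G, ((lc x b : ℂˣ) : ℂ) := by
    intro b
    unfold induced
    rw [finsum_eq_sum_of_fintype]
    congr 1
    refine Finset.sum_congr rfl fun x _ => ?_
    rw [dif_pos (hmem x b)]
    rfl
  -- the elements of `B` fix `l`
  have hfixB : ∀ x ∈ B, lc x = l := by
    intro x hx
    refine MonoidHom.ext fun b => ?_
    rw [hlc]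
    have e : (⟨x⁻¹ * b * x, hmem x b⟩ : B) = (⟨x, hx⟩ : B)⁻¹ * b * ⟨x, hx⟩ := rfl
    rw [e, map_mul, map_mul, map_inv, mul_comm, ← mul_assoc, mul_inv_cancel, one_mul]
  -- the elements fixing `l` are in `B`
  have hfix : ∀ t, lc t = l → t ∈ B := by
    intro t ht
    -- the core of the kernel
    let R : Subgroup G :=
      { carrier := {x | ∃ h : x ∈ B, ∀ g, lc g ⟨x, h⟩ = 1}
        mul_mem' := by
          rintro x y ⟨hx, hx1⟩ ⟨hy, hy1⟩
          refine ⟨B.mul_mem hx hy, fun g => ?_⟩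
          have e : (⟨x * y, B.mul_mem hx hy⟩ : B) = ⟨x, hx⟩ * ⟨y, hy⟩ := rfl
          rw [e, map_mul, hx1, hy1, one_mul]
        one_mem' := ⟨B.one_mem, fun g => map_one (lc g)⟩
        inv_mem' := by
          rintro x ⟨hx, hx1⟩
          refine ⟨B.inv_mem hx, fun g => ?_⟩
          have e : (⟨x⁻¹, B.inv_mem hx⟩ : B) = (⟨x, hx⟩ : B)⁻¹ := rfl
          rw [e, map_inv, hx1, inv_one] }
    have hRmem : ∀ x, x ∈ R ↔ ∃ h : x ∈ B, ∀ g, lc g ⟨x, h⟩ = 1 := fun x => Iff.rfl
    have hRn : R.Normal := by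
      constructor
      rintro x ⟨hx, hx1⟩ y
      refine ⟨hBn.conj_mem x hx y, fun g => ?_⟩
      have h1 := hx1 (y⁻¹ * g)
      rw [hlc] at h1 ⊢
      rw [← h1]
      congr 1
      apply Subtype.ext
      change g⁻¹ * (y * x * y⁻¹) * g = (y⁻¹ * g)⁻¹ * x * (y⁻¹ * g)
      group
    -- the core is in the kernel of `χ`
    have hRinv : ∀ z ∈ R, ∀ x, induced B l (z * x) = induced B l x := by
      rintro z ⟨hz, hz1⟩ x
      unfold induced
      congr 1
      refine finsum_congr fun y => ?_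
      have hz2 := hz1 y
      rw [hlc] at hz2
      have hiff : y⁻¹ * (z * x) * y ∈ B ↔ y⁻¹ * x * y ∈ B := by
        have e : y⁻¹ * (z * x) * y = (y⁻¹ * z * y) * (y⁻¹ * x * y) := by group
        rw [e]
        exact B.mul_mem_cancel_left (hmem y ⟨z, hz⟩)
      by_cases h : y⁻¹ * x * y ∈ B
      · rw [dif_pos h, dif_pos (hiff.mpr h)]
        have e : (⟨y⁻¹ * (z * x) * y, hiff.mpr h⟩ : B) =
            ⟨y⁻¹ * z * y, hmem y ⟨z, hz⟩⟩ * ⟨y⁻¹ * x * y, h⟩ := by
          apply Subtype.ext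
          change y⁻¹ * (z * x) * y = (y⁻¹ * z * y) * (y⁻¹ * x * y)
          group
        rw [e, map_mul, hz2, one_mul]
      · rw [dif_neg h, dif_neg (fun h2 => h (hiff.mp h2))]
    have hRZ : R ≤ Z := by
      intro z hz
      rw [hZ1]
      by_contra hcon
      have h1 := pair_zero hχ R hRinv hz hcon
      rw [hpair χ hχ] at h1
      rcases mul_eq_zero.mp h1 with h2 | h2
      · exact hmχ (by exact_mod_cast h2)
      · exact hG0 h2
    -- `t` commutes with `B` modulo the kernel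
    have htB : ∀ b ∈ B, ⁅t, b⁆ ∈ Z := by
      intro b hb
      apply hRZ
      rw [hRmem]
      have hcB : ⁅t, b⁆ ∈ B :=
        hB1 (Subgroup.commutator_mem_commutator (Subgroup.mem_top t) (Subgroup.mem_top b))
      refine ⟨hcB, fun g => ?_⟩
      rw [hlc]
      -- conjugate everything by `g`
      set u : G := t⁻¹ * (g⁻¹ * t * g) with hu
      have huB : u ∈ B := by
        have e : u = ⁅t⁻¹, g⁻¹⁆ := by
          rw [hu, commutatorElement_def]
          group
        rw [e]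
        exact hB1 (Subgroup.commutator_mem_commutator (Subgroup.mem_top _) (Subgroup.mem_top _))
      set b' : G := g⁻¹ * b * g with hb'
      have hb'B : b' ∈ B := hmem g ⟨b, hb⟩
      have e1 : g⁻¹ * ⁅t, b⁆ * g = t * (u * b' * u⁻¹) * t⁻¹ * b'⁻¹ := by
        rw [hu, hb', commutatorElement_def]
        group
      have huu : u * b' * u⁻¹ ∈ B := B.mul_mem (B.mul_mem huB hb'B) (B.inv_mem huB)
      have htt : t * (u * b' * u⁻¹) * t⁻¹ ∈ B := hBn.conj_mem _ huu t
      have e2 : (⟨g⁻¹ * ((⟨⁅t, b⁆, hcB⟩ : B) : G) * g, hmem g ⟨⁅t, b⁆, hcB⟩⟩ : B) =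
          ⟨t * (u * b' * u⁻¹) * t⁻¹, htt⟩ * (⟨b', hb'B⟩ : B)⁻¹ := by
        apply Subtype.ext
        exact e1
      rw [e2, map_mul, map_inv]
      have e3 : l ⟨t * (u * b' * u⁻¹) * t⁻¹, htt⟩ = l ⟨u * b' * u⁻¹, huu⟩ := by
        have h5 := DFunLike.congr_fun ht ⟨t * (u * b' * u⁻¹) * t⁻¹, htt⟩
        rw [← h5, hlc]
        congr 1
        apply Subtype.ext
        change t⁻¹ * (t * (u * b' * u⁻¹) * t⁻¹) * t = u * b' * u⁻¹
        group
      have e4 : l ⟨u * b' * u⁻¹, huu⟩ = l ⟨b', hb'B⟩ := by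
        have e5 : (⟨u * b' * u⁻¹, huu⟩ : B) = ⟨u, huB⟩ * ⟨b', hb'B⟩ * (⟨u, huB⟩ : B)⁻¹ := rfl
        rw [e5, map_mul, map_mul, map_inv, mul_comm (l ⟨u, huB⟩), mul_inv_cancel_right]
      rw [e3, e4, mul_inv_cancel]
    -- maximality
    have hmaxle := hBmax.le_of_ge (y := B ⊔ Subgroup.zpowers t) ?_ le_sup_left
    · exact hmaxle ((le_sup_right : _ ≤ B ⊔ Subgroup.zpowers t) (Subgroup.mem_zpowers t))
    · refine ⟨hB1.trans le_sup_left, ?_⟩
      let π : G →* G ⧸ Z := QuotientGroup.mk' Z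
      have hπ1 : ∀ x y, ⁅x, y⁆ ∈ Z ↔ π x * π y = π y * π x := by
        intro x y
        rw [← QuotientGroup.eq_one_iff]
        change π ⁅x, y⁆ = 1 ↔ _
        rw [map_commutatorElement, commutatorElement_eq_one_iff_mul_comm]
      have s1 : ∀ b ∈ B, ∀ x ∈ B ⊔ Subgroup.zpowers t, π x * π b = π b * π x := by
        intro b hb
        have h2 : B ⊔ Subgroup.zpowers t ≤ (Subgroup.centralizer {π b}).comap π := by
          refine sup_le (fun x hx => ?_) ?_
          · rw [Subgroup.mem_comap, Subgroup.mem_centralizer_singleton_iff]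
            exact (hπ1 _ _).mp (hB2 x hx b hb)
          · rw [Subgroup.zpowers_le, Subgroup.mem_comap, Subgroup.mem_centralizer_singleton_iff]
            exact (hπ1 _ _).mp (htB b hb)
        intro x hx
        exact Subgroup.mem_centralizer_singleton_iff.mp (h2 hx)
      have s2 : ∀ x ∈ B ⊔ Subgroup.zpowers t, π x * π t = π t * π x := by
        have h2 : B ⊔ Subgroup.zpowers t ≤ (Subgroup.centralizer {π t}).comap π := by
          refine sup_le (fun x hx => ?_) ?_
          · rw [Subgroup.mem_comap, Subgroup.mem_centralizer_singleton_iff]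
            exact ((hπ1 _ _).mp (htB x hx)).symm
          · rw [Subgroup.zpowers_le, Subgroup.mem_comap, Subgroup.mem_centralizer_singleton_iff]
        intro x hx
        exact Subgroup.mem_centralizer_singleton_iff.mp (h2 hx)
      intro x hx y hy
      rw [hπ1]
      have h2 : B ⊔ Subgroup.zpowers t ≤ (Subgroup.centralizer {π x}).comap π := by
        refine sup_le (fun b hb => ?_) ?_
        · rw [Subgroup.mem_comap, Subgroup.mem_centralizer_singleton_iff]
          exact (s1 b hb x hx).symm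
        · rw [Subgroup.zpowers_le, Subgroup.mem_comap, Subgroup.mem_centralizer_singleton_iff]
          exact (s2 x hx).symm
      exact (Subgroup.mem_centralizer_singleton_iff.mp (h2 hy)).symm
  -- the norm of the induced character
  have hnorm1 : ∑ᶠ b : B, induced B l b * (((l b)⁻¹ : ℂˣ) : ℂ) = (1 : ℂ) * (Nat.card B : ℂ) := by
    rw [finsum_eq_sum_of_fintype, one_mul]
    have h1 : ∀ b : B, induced B l b * (((l b)⁻¹ : ℂˣ) : ℂ) = (Nat.card B : ℂ)⁻¹ *
        ∑ x : G, ((lc x b : ℂˣ) : ℂ) * (((l b)⁻¹ : ℂˣ) : ℂ) := by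
      intro b
      rw [hval, mul_assoc, Finset.sum_mul]
    rw [Finset.sum_congr rfl (fun b _ => h1 b), ← Finset.mul_sum, Finset.sum_comm]
    have h2 : ∀ x : G, ∑ b : B, ((lc x b : ℂˣ) : ℂ) * (((l b)⁻¹ : ℂˣ) : ℂ) =
        if x ∈ B then (Nat.card B : ℂ) else 0 := by
      intro x
      split_ifs with hx
      · rw [hfixB x hx]
        exact sum_char_self l
      · exact sum_char_char (lc x) l (fun h => hx (hfix x h))
    rw [Finset.sum_congr rfl (fun x _ => h2 x), ← Finset.sum_filter, Finset.sum_const,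
      nsmul_eq_mul]
    have h3 : (Finset.univ.filter (fun x => x ∈ B)).card = Nat.card B := by
      rw [Nat.card_eq_fintype_card, ← Fintype.card_subtype]
    rw [h3]
    field_simp
  have hconj : ∀ g x : G, induced B l (x * g * x⁻¹) = induced B l g :=
    fun g x => induced_conj B l g x
  have hnorm2 := induced_pair B l hconj hnorm1
  rw [one_mul] at hnorm2
  have hexp := class_expand hconj hpair
  have hsum : ∑ χ' ∈ irrF G, (m χ') ^ 2 = 1 := by
    have h1 : ∑ g, induced B l g * induced B l g⁻¹ =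
        ((∑ χ' ∈ irrF G, (m χ') ^ 2 : ℕ) : ℂ) * Nat.card G := by
      have h2 : ∀ g : G, induced B l g * induced B l g⁻¹ =
          ∑ χ' ∈ irrF G, (m χ' : ℂ) * (induced B l g * χ' g⁻¹) := by
        intro g
        conv_lhs => rw [hexp g⁻¹]
        rw [Finset.mul_sum]
        exact Finset.sum_congr rfl fun χ' _ => by ring
      rw [Finset.sum_congr rfl (fun g _ => h2 g), Finset.sum_comm]
      push_cast
      rw [Finset.sum_mul]
      refine Finset.sum_congr rfl fun χ' hχ' => ?_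
      rw [← Finset.mul_sum, hpair χ' (mem_irrF.mp hχ')]
      ring
    rw [hnorm2] at h1
    have h2 : ((∑ χ' ∈ irrF G, (m χ') ^ 2 : ℕ) : ℂ) = ((1 : ℕ) : ℂ) := by
      apply mul_right_cancel₀ hG0
      rw [← h1, Nat.cast_one, one_mul]
    exact_mod_cast h2
  have hχF : χ ∈ irrF G := mem_irrF.mpr hχ
  have hone : (m χ) ^ 2 + ∑ χ' ∈ (irrF G).erase χ, (m χ') ^ 2 = 1 := by
    rw [Finset.add_sum_erase (irrF G) (fun χ' => (m χ') ^ 2) hχF]
    exact hsum
  have hmpos : 1 ≤ (m χ) ^ 2 := Nat.one_le_iff_ne_zero.mpr (pow_ne_zero 2 hmχ)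
  have hm1 : (m χ) ^ 2 = 1 := by omega
  have hrest : ∑ χ' ∈ (irrF G).erase χ, (m χ') ^ 2 = 0 := by omega
  have hm1' : m χ = 1 := by
    rcases Nat.lt_or_ge (m χ) 2 with h | h
    · interval_cases hmm : m χ
      · simp at hm1
      · rfl
    · nlinarith
  funext g
  rw [hexp g, ← Finset.add_sum_erase (irrF G) (fun χ' => (m χ' : ℂ) * χ' g) hχF, hm1', Nat.cast_one, one_mul, Finset.sum_eq_zero,
    add_zero]
  intro χ' hχ'
  have h1 := (Finset.sum_eq_zero_iff.mp hrest) χ' hχ'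
  have h2 : m χ' = 0 := by simpa using h1
  rw [h2, Nat.cast_zero, zero_mul]

end

end Pool.Agent.H377.AD
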