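import Mathlib
import Pool.Agent.H377.AD.Met

/-!
# Layered subgroups and the L-functions of an elliptic curve
-/

set_option autoImplicit false
set_option linter.unusedSectionVars false

namespace Pool.Agent.H377.AD

open NumberField IsDedekindDomain Pool.Agent.H541R3.ART Pool.Agent.W446.AS Pool.Agent.H302R2
  Pool.Agent.H302R3 Pool.Agent.Q7.SZ Pool.Agent.Q7.RL Pool.Agent.Q92.RT
  Pool.Agent.W353.NF Pool.Agent.H341R2.EC
open scoped commutatorElement

section data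

variable {G : Type} [Group G] [Finite G] {s₀ : ℂ} (A : TwistData G s₀) {r : ℕ}

/-- the functions `L χ` with `χ` nontrivial on a layered subgroup have no zero and no pole -/
theorem ord_eq_zero (hr : meromorphicOrderAt (A.Lin ⊥ 1) s₀ = (r : WithTop ℤ)) {N : Subgroup G}
    (hN : Layered r N) {χ : G → ℂ} (hχ : χ ∈ Irr G) (h : ∃ x ∈ N, χ x ≠ χ 1) : A.ord χ = 0 := by
  classical
  have : Fintype G := Fintype.ofFinite G
  obtain ⟨x, hx, hx1⟩ := h
  have hn : N.Normal := hN.normal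
  have hinv := hN.inv A.isSol le_rfl (A.theta_one hr)
  have h1 := pair_zero hχ N hinv hx hx1
  rw [theta_pair _ hχ] at h1
  have hG : (Nat.card G : ℂ) ≠ 0 := by exact_mod_cast Nat.card_pos.ne'
  have h2 := (mul_eq_zero.mp h1).resolve_right hG
  exact_mod_cast h2

/-- no poles over the subgroups which are wide modulo the layered subgroup -/
theorem Lin_nonneg (hr : meromorphicOrderAt (A.Lin ⊥ 1) s₀ = (r : WithTop ℤ)) {N : Subgroup G}
    (hN : Layered r N) (H : Subgroup G) {P : Type} [Group P] (π : H →* P)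
    (hπ : Function.Surjective π) (hk : π.ker = N.subgroupOf H) (hH : Wide r P inferInstance)
    (ψ : H →* ℂˣ) :
    ∃ k : ℤ, 0 ≤ k ∧ meromorphicOrderAt (A.Lin H ψ) s₀ = (k : WithTop ℤ) := by
  obtain ⟨k, hk1, hk2⟩ := A.order_mult H ψ
  obtain ⟨n, hn'⟩ := mult_nat hN A.isSol le_rfl (A.theta_one hr) H π hπ hk hH ψ
  refine ⟨k, ?_, hk1⟩
  have hH0 : (Nat.card H : ℂ) ≠ 0 := by exact_mod_cast Nat.card_pos.ne'
  rw [hk2] at hn'
  have h1 := mul_right_cancel₀ hH0 hn'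
  have h2 : k = (n : ℤ) := by exact_mod_cast h1
  rw [h2]
  exact Int.natCast_nonneg n

/-- no poles if the quotient is solvable -/
theorem Lin_nonneg_sol (hr : meromorphicOrderAt (A.Lin ⊥ 1) s₀ = (r : WithTop ℤ)) {N : Subgroup G}
    (hN : Layered r N) {j : ℕ} (hj : derivedSeries G j ≤ N) (H : Subgroup G) (ψ : H →* ℂˣ) :
    ∃ k : ℤ, 0 ≤ k ∧ meromorphicOrderAt (A.Lin H ψ) s₀ = (k : WithTop ℤ) := by
  have hn : N.Normal := hN.normal
  have hπ : Function.Surjective (QuotientGroup.mk' (N.subgroupOf H)) :=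
    QuotientGroup.mk'_surjective _
  have hk : (QuotientGroup.mk' (N.subgroupOf H)).ker = N.subgroupOf H := QuotientGroup.ker_mk' _
  exact Lin_nonneg A hr hN H _ hπ hk (Wide.sol _ _ (sol_of_derived hj H _ hπ hk)) ψ

end data

section curve

variable {K M : Type} [Field K] [NumberField K] [Field M] [NumberField M] [Algebra K M]
  [IsGalois K M] {E : WeierstrassCurve K} {W : WeierstrassCurve (𝓞 K)} {s₀ : ℂ}
  {n : ((M ≃ₐ[K] M) → ℂ) → ℤ} {r : IntermediateField K M → ℤ}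

/-- nonvanishing -/
theorem curve_zero (hE : E.IsElliptic) (hW : IsModel E W) (hs : 1 ≤ s₀.re)
    (a : Automorphic M W s₀) (ho : Orders E W s₀ n r) {k : ℕ} (hk : r ⊤ = k)
    {N : Subgroup (M ≃ₐ[K] M)} (hN : Layered k N) {χ : (M ≃ₐ[K] M) → ℂ}
    (hχ : χ ∈ Irr (M ≃ₐ[K] M)) (h : ∃ x ∈ N, χ x ≠ χ 1) : n χ = 0 := by
  have hr := ho.bot hE hW hs a
  rw [hk] at hr
  rw [← ho.ord a hχ]
  exact ord_eq_zero _ hr hN hχ h

/-- the orders depend only on the intersection with the fixed field -/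
theorem curve_field (hE : E.IsElliptic) (hW : IsModel E W) (hs : 1 ≤ s₀.re)
    (a : Automorphic M W s₀) (ho : Orders E W s₀ n r) {k : ℕ} (hk : r ⊤ = k)
    {N : Subgroup (M ≃ₐ[K] M)} (hN : Layered k N) (F : IntermediateField K M) :
    r F = r (F ⊓ IntermediateField.fixedField N) := by
  have hr := ho.bot hE hW hs a
  rw [hk] at hr
  have h1 := (TwistData.ofCurve a).order_sup (N := N) (fun χ hχ hne x hx => by
    by_contra hcon
    exact hne (ord_eq_zero _ hr hN hχ ⟨x, hx, hcon⟩)) F.fixingSubgroup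
  rw [ho.lin hE hW hs a F] at h1
  have h2 := ho.lin hE hW hs a (F ⊓ IntermediateField.fixedField N)
  rw [fixingSubgroup_inf, IntermediateField.fixingSubgroup_fixedField, h1] at h2
  exact_mod_cast h2

/-- holomorphy -/
theorem curve_hol (hE : E.IsElliptic) (hW : IsModel E W) (hs : 1 ≤ s₀.re)
    (a : Automorphic M W s₀) (ho : Orders E W s₀ n r) {k : ℕ} (hk : r ⊤ = k)
    {N : Subgroup (M ≃ₐ[K] M)} (hN : Layered k N) (H : Subgroup (M ≃ₐ[K] M))
    {P : Type} [Group P] (π : H →* P)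
    (hπ : Function.Surjective π) (hker : π.ker = N.subgroupOf H) (hH : Wide k P inferInstance)
    (ψ : H →* ℂˣ) : ∃ l : ℤ, 0 ≤ l ∧ HasOrder (twistedL M W (induced H ψ)) s₀ l := by
  have hr := ho.bot hE hW hs a
  rw [hk] at hr
  obtain ⟨l, hl, h1⟩ := Lin_nonneg _ hr hN H π hπ hker hH ψ
  exact ⟨l, hl, (ind_iff a H ψ l).2 h1⟩

theorem curve_hol_sol (hE : E.IsElliptic) (hW : IsModel E W) (hs : 1 ≤ s₀.re)
    (a : Automorphic M W s₀) (ho : Orders E W s₀ n r) {k : ℕ} (hk : r ⊤ = k)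
    {N : Subgroup (M ≃ₐ[K] M)} (hN : Layered k N) {j : ℕ}
    (hj : derivedSeries (M ≃ₐ[K] M) j ≤ N) (H : Subgroup (M ≃ₐ[K] M))
    (ψ : H →* ℂˣ) : ∃ l : ℤ, 0 ≤ l ∧ HasOrder (twistedL M W (induced H ψ)) s₀ l := by
  have hr := ho.bot hE hW hs a
  rw [hk] at hr
  obtain ⟨l, hl, h1⟩ := Lin_nonneg_sol _ hr hN hj H ψ
  exact ⟨l, hl, (ind_iff a H ψ l).2 h1⟩

theorem curve_field_sol (hE : E.IsElliptic) (hW : IsModel E W) (hs : 1 ≤ s₀.re)
    (a : Automorphic M W s₀) (ho : Orders E W s₀ n r) {k : ℕ} (hk : r ⊤ = k)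
    {N : Subgroup (M ≃ₐ[K] M)} (hN : Layered k N) {j : ℕ}
    (hj : derivedSeries (M ≃ₐ[K] M) j ≤ N) (F : IntermediateField K M) : 0 ≤ r F := by
  have hr := ho.bot hE hW hs a
  rw [hk] at hr
  obtain ⟨l, hl, h1⟩ := Lin_nonneg_sol _ hr hN hj F.fixingSubgroup 1
  rw [ho.lin hE hW hs a F] at h1
  have h2 : r F = l := by exact_mod_cast h1
  omega

/-- all irreducible characters, if the quotient is metabelian -/
theorem curve_met (hE : E.IsElliptic) (hW : IsModel E W) (hs : 1 ≤ s₀.re)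
    (a : Automorphic M W s₀) (ho : Orders E W s₀ n r) {k : ℕ} (hk : r ⊤ = k)
    {N : Subgroup (M ≃ₐ[K] M)} (hN : Layered k N)
    (hj : derivedSeries (M ≃ₐ[K] M) 2 ≤ N) {χ : (M ≃ₐ[K] M) → ℂ} (hχ : χ ∈ Irr (M ≃ₐ[K] M)) :
    0 ≤ n χ := by
  by_cases h : ∃ x ∈ N, χ x ≠ χ 1
  · exact (curve_zero hE hW hs a ho hk hN hχ h).ge
  · push Not at h
    rw [derivedSeries_succ, derivedSeries_one] at hj
    obtain ⟨B, l, -, hind⟩ := induced_of_metabelian hχ h hj
    obtain ⟨m, hm, h1⟩ := curve_hol_sol hE hW hs a ho hk hN (j := 2)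
      (by rw [derivedSeries_succ, derivedSeries_one]; exact hj) B l
    rw [← hind] at h1
    rw [(ho.twist χ hχ).unique h1]
    exact hm

/-- **Additivity for commuting normal subgroups.** -/
theorem curve_add (hE : E.IsElliptic) (hW : IsModel E W) (hs : 1 ≤ s₀.re)
    (a : Automorphic M W s₀) (ho : Orders E W s₀ n r) {k : ℕ} (hk : r ⊤ = k)
    {ι : Type} (X : ι → Subgroup (M ≃ₐ[K] M)) (b : ι → ℕ) (hn : ∀ i, (X i).Normal)
    (hc : ∀ i j, i ≠ j → ∀ x ∈ X i, ∀ y ∈ X j, x * y = y * x) (hb : ∀ i, Rigid (b i) (X i))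
    (s : Finset ι) (hvis : ∀ i ∈ s, ∃ χ ∈ Irr (M ≃ₐ[K] M), n χ ≠ 0 ∧
      ∃ x ∈ ⁅X i, X i⁆, χ x ≠ χ 1) : ∑ i ∈ s, b i ≤ k := by
  classical
  have hr := ho.bot hE hW hs a
  rw [hk] at hr
  set A := TwistData.ofCurve a with hA
  have hθ := A.isSol
  have h1 := A.theta_one hr
  have hex : ∀ i ∈ s, ∃ y ∈ commutator (X i), theta A.ord ((X i).subtype y) ≠ theta A.ord 1 := by
    intro i hi
    by_contra hcon
    push Not at hcon
    obtain ⟨χ, hχ, hne, x, hx, hx1⟩ := hvis i hi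
    apply hne
    have hni := hn i
    have hconst : ∀ z ∈ ⁅X i, X i⁆, theta A.ord z = theta A.ord 1 := by
      intro z hz
      rw [← map_commutator_top] at hz
      obtain ⟨y, hy, rfl⟩ := hz
      exact hcon y hy
    have hnorm : (⁅X i, X i⁆ : Subgroup (M ≃ₐ[K] M)).Normal := inferInstance
    have h2 := pair_zero hχ ⁅X i, X i⁆ (kernel_sol hθ _ hnorm hconst) hx hx1
    rw [theta_pair _ hχ] at h2
    have hG : (Nat.card (M ≃ₐ[K] M) : ℂ) ≠ 0 := by exact_mod_cast Nat.card_pos.ne'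
    have h3 := (mul_eq_zero.mp h2).resolve_right hG
    rw [← ho.ord a hχ]
    exact_mod_cast h3
  choose! y hy hne using hex
  exact additivity hb s _ (theta A.ord) hθ (fun i => (X i).subtype)
    (fun i _ j _ hij x z => hc i j hij x x.2 z z.2) y hy hne k h1

end curve

end Pool.Agent.H377.AD
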