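import Mathlib
import Pool.Agent.H377.AD.Quo
import Pool.Graph.R_seed8.R389.Brauer
import Pool.Graph.R_pool_sql_team_seeded_3997aac3.Q7.SZ.Lin
import Pool.Graph.R_pool_sql_team_seeded_3997aac3.Q7.TZ.Rig
import Pool.Graph.R_pool_sql_team_seeded_b3bd081e.H541R3.HBS.Rig
import Pool.Graph.R_pool_sql_team_seeded_b3bd081e.H541R3.ARS.SolD

/-!
# Groups without quotients with exactly one involution are rigid below the degree three
-/

set_option autoImplicit false
set_option linter.unusedSectionVars false

namespace Pool.Agent.H377.AD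

open Pool.Agent.H302R2 Pool.Agent.H302R3 Pool.Agent.H541R3.ART Pool.Agent.W446.AS
  Pool.Agent.R389
open scoped commutatorElement

section brauer

variable {G : Type} [Group G] [Finite G] {θ : G → ℂ}

/-- linear characters of solvable subgroups -/
lemma pr_lin (hθ : IsSolHeilbronn θ) (K : Subgroup G) (hK : Group.IsSolvable K) (ψ : K →* ℂˣ) :
    ∃ n : ℤ, pr (fun h : K => θ h) (fun h => ((ψ h : ℂˣ) : ℂ)) = n := by
  classical
  have : Fintype K := Fintype.ofFinite K
  obtain ⟨m, hm⟩ := hθ.mult K hK ψ
  refine ⟨m, ?_⟩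
  rw [finsum_eq_sum_of_fintype] at hm
  rw [pr_eq]
  have h1 : ∀ w : K, θ w * ((ψ w⁻¹ : ℂˣ) : ℂ) = θ w * (((ψ w)⁻¹ : ℂˣ) : ℂ) := by
    intro w; rw [map_inv]
  rw [Finset.sum_congr rfl (fun w _ => h1 w), hm]
  have h5 : (Nat.card K : ℂ) ≠ 0 := card_ne
  field_simp
  push_cast
  rfl

/-- irreducible characters of nilpotent groups -/
lemma pr_nil (hθ : IsSolHeilbronn θ) (hG : Group.IsNilpotent G) {φ : G → ℂ} (hφ : φ ∈ Irr G) :
    ∃ n : ℤ, pr θ φ = n := by
  obtain ⟨K, ψ, rfl⟩ := nil_mono _ G rfl hG φ hφ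
  rw [frob' K _ (fun g x => hθ.conj g x)]
  have : Group.IsNilpotent K := inferInstance
  exact pr_lin hθ K inferInstance ψ

lemma pr_nil_virt (hθ : IsSolHeilbronn θ) (hG : Group.IsNilpotent G) {φ : G → ℂ} (hφ : Virt φ) :
    ∃ n : ℤ, pr θ φ = n := by
  induction hφ using AddSubgroup.closure_induction with
  | mem χ hχ => exact pr_nil hθ hG hχ
  | zero => exact ⟨0, by rw [pr_comm, pr_zero_left]; simp⟩
  | add a b _ _ ha hb =>
    obtain ⟨k, hk⟩ := ha
    obtain ⟨l, hl⟩ := hb
    exact ⟨k + l, by rw [pr_comm, pr_add, pr_comm a, pr_comm b, hk, hl]; push_cast; rfl⟩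
  | neg a _ ha =>
    obtain ⟨k, hk⟩ := ha
    exact ⟨-k, by rw [pr_comm, pr_neg, pr_comm a, hk]; push_cast; rfl⟩

lemma virt_twist {f : G → ℂ} (hf : Virt f) (ψ : G →* ℂˣ) :
    Virt (fun v => f v * ((ψ v : ℂˣ) : ℂ)) := by
  induction hf using AddSubgroup.closure_induction with
  | mem a ha => exact AddSubgroup.subset_closure (irr_twist ha ψ)
  | zero =>
    have : (fun v : G => (0 : G → ℂ) v * ((ψ v : ℂˣ) : ℂ)) = 0 := by
      funext v; simp
    rw [this]; exact zero_mem (AddSubgroup.closure (Irr G))
  | add a b _ _ ha hb =>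
    have : (fun v : G => (a + b) v * ((ψ v : ℂˣ) : ℂ)) =
        (fun v : G => a v * ((ψ v : ℂˣ) : ℂ)) + fun v : G => b v * ((ψ v : ℂˣ) : ℂ) := by
      funext v; simp [add_mul]
    rw [this]; exact add_mem (S := AddSubgroup (G → ℂ)) ha hb
  | neg a _ ha =>
    have : (fun v : G => (-a) v * ((ψ v : ℂˣ) : ℂ)) =
        -(fun v : G => a v * ((ψ v : ℂˣ) : ℂ)) := by
      funext v; simp
    rw [this]; exact neg_mem (S := AddSubgroup (G → ℂ)) ha

/-- **Brauer.** A class function with integral multiplicities on the solvable subgroups is a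
virtual character. -/
theorem virt_of_sol (hθ : IsSolHeilbronn θ) : Virt θ := by
  classical
  have : Fintype G := Fintype.ofFinite G
  refine virt_of_int (fun g x => hθ.conj g x) fun χ hχ => ?_
  set F : G → ℂ := fun g => θ g * χ g⁻¹ with hF
  have hFc : ∀ g x : G, F (x * g * x⁻¹) = F g := by
    intro g x
    have h1 : (x * g * x⁻¹)⁻¹ = x * g⁻¹ * x⁻¹ := by group
    simp only [hF, h1, hθ.conj, Irr.conj hχ]
  have h1 : pr θ χ = pr F (fun _ => 1) := by
    rw [pr_eq, pr_eq]
    simp only [hF, mul_one]
  rw [h1]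
  have key : ∀ f ∈ PN G, ∃ n : ℤ, pr F f = n := by
    intro f hf
    induction hf using AddSubgroup.closure_induction with
    | mem f hf =>
      obtain ⟨V, ψ, hV, rfl⟩ := hf
      rw [frob' V _ hFc]
      have : Fintype V := Fintype.ofFinite V
      have h2 : Virt (fun v : V => χ v * ((ψ v : ℂˣ) : ℂ)) :=
        virt_twist (Virt.comp (AddSubgroup.subset_closure hχ : Virt χ) V.subtype) ψ
      obtain ⟨n, hn⟩ := pr_nil_virt (hθ.comp V.subtype) hV h2
      refine ⟨n, ?_⟩
      rw [← hn, pr_eq, pr_eq]
      congr 1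
      refine Finset.sum_congr rfl fun v _ => ?_
      simp only [hF, Subgroup.coe_subtype, Subgroup.coe_inv]
      ring
    | zero => exact ⟨0, by rw [pr_comm, pr_zero_left]; simp⟩
    | add a b _ _ ha hb =>
      obtain ⟨k, hk⟩ := ha
      obtain ⟨l, hl⟩ := hb
      exact ⟨k + l, by rw [pr_comm, pr_add, pr_comm a, pr_comm b, hk, hl]; push_cast; rfl⟩
    | neg a _ ha =>
      obtain ⟨k, hk⟩ := ha
      exact ⟨-k, by rw [pr_comm, pr_neg, pr_comm a, hk]; push_cast; rfl⟩
  exact key _ one_mem_pn

end brauer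

/-- class functions of degree at most two are constant on the commutator subgroup, if it is perfect
and no quotient of it has exactly one involution -/
theorem rigid_three {T : Type} [Group T] [Finite T] (hT : Group.IsPerfect (commutator T))
    (hq : ∀ (M : Type) [Group M] (f : commutator T →* M), Function.Surjective f →
      ¬ ∃! t : M, t ≠ 1 ∧ t * t = 1) : Rigid 3 T := by
  intro ε hε n hn h1 x hx
  have h2 := hε.comp (commutator T).subtype
  have hv := virt_of_sol h2
  have h3 := Pool.Agent.Q7.SZ.heil_of_sol h2 hv (r := n) (by omega)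
    (by rw [map_one]; exact h1)
  have h4 := Pool.Agent.Q7.TZ.rigid_two hT hq _ h3 hv n (by omega) (by rw [map_one]; exact h1)
    ⟨x, hx⟩
  exact h4

/-- nonabelian simple groups -/
theorem rigid_simple {T : Type} [Group T] [Finite T] [IsSimpleGroup T]
    (hT : ¬ ∀ a b : T, a * b = b * a) : Rigid 3 T := by
  have hcomm : commutator T = ⊤ := by
    rcases (inferInstance : (commutator T).Normal).eq_bot_or_eq_top with h | h
    · exfalso
      apply hT
      intro a b
      have h1 : ⁅a, b⁆ ∈ commutator T :=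
        Subgroup.commutator_mem_commutator (Subgroup.mem_top a) (Subgroup.mem_top b)
      rw [h, Subgroup.mem_bot] at h1
      exact commutatorElement_eq_one_iff_mul_comm.mp h1
    · exact h
  have hperf : Group.IsPerfect T := ⟨hcomm⟩
  let e : T ≃* commutator T := Subgroup.topEquiv.symm.trans (MulEquiv.subgroupCongr hcomm.symm)
  refine rigid_three ?_ ?_
  · exact Group.IsPerfect.ofSurjective (f := e.toMonoidHom) e.surjective
  · rintro M _ f hf ⟨t, ⟨ht1, ht2⟩, hu⟩
    let f' : T →* M := f.comp e.toMonoidHom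
    have hf' : Function.Surjective f' := hf.comp e.surjective
    rcases (inferInstance : f'.ker.Normal).eq_bot_or_eq_top with h | h
    · obtain ⟨s, rfl⟩ := hf' t
      have hinj : Function.Injective f' := (MonoidHom.ker_eq_bot_iff _).mp h
      have hs1 : s ≠ 1 := fun h => ht1 (by rw [h, map_one])
      have hs2 : s * s = 1 := hinj (by rw [map_mul, ht2, map_one])
      have hcen : s ∈ Subgroup.center T := by
        rw [Subgroup.mem_center_iff]
        intro g
        have h1 : f' (g * s * g⁻¹) = f' s := by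
          apply hu
          constructor
          · intro h2
            apply hs1
            have h3 := hinj (h2.trans (map_one f').symm)
            have h4 : s = g⁻¹ * (g * s * g⁻¹) * g := by group
            rw [h4, h3]; group
          · rw [← map_mul]
            have h2 : g * s * g⁻¹ * (g * s * g⁻¹) = g * (s * s) * g⁻¹ := by group
            rw [h2, hs2, mul_one, mul_inv_cancel, map_one]
        have h2 := hinj h1
        exact mul_inv_eq_iff_eq_mul.mp h2
      rcases (inferInstance : (Subgroup.center T).Normal).eq_bot_or_eq_top with h1 | h1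
      · rw [h1, Subgroup.mem_bot] at hcen
        exact hs1 hcen
      · apply hT
        intro a b
        have h2 : b ∈ Subgroup.center T := by rw [h1]; exact Subgroup.mem_top b
        exact Subgroup.mem_center_iff.mp h2 a
    · obtain ⟨s, rfl⟩ := hf' t
      apply ht1
      have h1 : s ∈ f'.ker := by rw [h]; exact Subgroup.mem_top s
      exact h1

/-- the alternating and symmetric groups -/
theorem rigid_sym {N j : ℕ} (hN : 5 ≤ N) (hj : 2 ≤ j) (T : Subgroup (Equiv.Perm (Fin N)))
    (hT : alternatingGroup (Fin N) ≤ T) : Rigid ((2 ^ j - 1) * (N / 2 ^ j)) T := by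
  classical
  intro ε hε n hn h1 x hx
  obtain ⟨a, b, hab⟩ := Pool.Agent.H541R3.ARS.sym_core_sol hN hj T hT hε h1 hn
  rw [hab, hab]
  have h3 : Equiv.Perm.sign (x : Equiv.Perm (Fin N)) = 1 := by
    have h4 : (Equiv.Perm.sign.comp T.subtype) x = 1 :=
      Abelianization.commutator_subset_ker _ hx
    exact h4
  rw [h3]
  simp

/-- special linear groups of rank one in characteristic two -/
theorem rigid_sl {F : Type} [Field F] [Finite F] [CharP F 2] :
    Rigid (Nat.card F - 1) (Matrix.SpecialLinearGroup (Fin 2) F) := by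
  intro ε hε n hn h1 x hx
  exact Pool.Agent.H541R3.HBS.sl2_kernel hε h1 (by omega) x

/-- general linear groups over the field with two elements -/
theorem rigid_gl {a b : ℕ} (ha : 0 < a) (hb : 0 < b) (hab : Nat.Coprime a b) :
    Rigid ((2 ^ a - 1) * (2 ^ b - 1)) (Matrix.GeneralLinearGroup (Fin (a + b)) (ZMod 2)) := by
  intro ε hε n hn h1 x hx
  exact Pool.Agent.H541R3.HBS.rig_gl ha hb hab hn ε hε n le_rfl h1 x

end Pool.Agent.H377.AD
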